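import Mathlib

/-!
The choice of the length of the pieces.
-/

namespace Pool.Agent.Helper1.MP

/-- Piece C2 -/
theorem mp_arith {N n b s : ℕ} {r : ℝ} (hs : 1 ≤ s) (hb : 2 ≤ b) (hn : 1 ≤ n) (hN : 2 ≤ N)
    (hNn : N ≤ b ^ n) (hr : 2 ≤ r)
    (h : ∀ L j : ℕ, 1 ≤ L → n ≤ j * L → j * L < n + L → ∃ J : ℕ, (3 / 2 : ℝ) ^ J ≤ r ∧
      N ≤ 16 ^ (s * (j + 1)) * 2 ^ j * b ^ (L * J)) :
    Real.log N ^ 2 ≤ 70 * (s + Real.log b) * (n * Real.log b) * Real.log r := by
  have hl2 := Real.log_two_gt_d9
  have hl2' := Real.log_two_lt_d9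
  have hN' : (2 : ℝ) ≤ N := by exact_mod_cast hN
  have hb' : (2 : ℝ) ≤ b := by exact_mod_cast hb
  have hs' : (1 : ℝ) ≤ s := by exact_mod_cast hs
  have hn' : (1 : ℝ) ≤ n := by exact_mod_cast hn
  have hlN : Real.log 2 ≤ Real.log N := Real.log_le_log (by norm_num) hN'
  have hlb : Real.log 2 ≤ Real.log b := Real.log_le_log (by norm_num) hb'
  have hlr : Real.log 2 ≤ Real.log r := Real.log_le_log (by norm_num) hr
  have hNb : Real.log N ≤ n * Real.log b := by
    have h1 : (N : ℝ) ≤ (b : ℝ) ^ n := by exact_mod_cast hNn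
    calc Real.log N ≤ Real.log ((b : ℝ) ^ n) := Real.log_le_log (by linarith) h1
      _ = n * Real.log b := by rw [Real.log_pow]
  set lam : ℝ := Real.log N with hlam
  set el : ℝ := Real.log b with hel
  set R : ℝ := Real.log r with hR
  have hlam0 : 0 < lam := by linarith
  have hel0 : 0 < el := by linarith
  have hR0 : 0 < R := by linarith
  rcases le_or_gt lam (48 * (s + el)) with hcase | hcase
  · have h1 : lam ^ 2 ≤ (n * el) * (48 * (s + el)) := by
      rw [pow_two]
      exact mul_le_mul hNb hcase hlam0.le (by positivity)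
    have h2 : (n * el) * (48 * (s + el)) ≤ (n * el) * ((70 * R) * (s + el)) := by
      refine mul_le_mul_of_nonneg_left ?_ (by positivity)
      refine mul_le_mul_of_nonneg_right ?_ (by positivity)
      linarith
    calc lam ^ 2 ≤ (n * el) * (48 * (s + el)) := h1
      _ ≤ (n * el) * ((70 * R) * (s + el)) := h2
      _ = 70 * (s + el) * (n * el) * R := by ring
  · have hq0 : 0 < 10 * (s : ℝ) * n / lam := by positivity
    set L : ℕ := ⌈10 * (s : ℝ) * n / lam⌉₊ with hL
    have hL1 : 1 ≤ L := Nat.ceil_pos.2 hq0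
    have hLlo : 10 * (s : ℝ) * n ≤ L * lam := by
      have := Nat.le_ceil (10 * (s : ℝ) * n / lam)
      rw [div_le_iff₀ hlam0] at this
      exact this
    have hLhi : (L : ℝ) * lam ≤ 10 * s * n + lam := by
      have := Nat.ceil_lt_add_one hq0.le
      rw [← hL] at this
      have h2 : (L : ℝ) * lam ≤ (10 * (s : ℝ) * n / lam + 1) * lam :=
        mul_le_mul_of_nonneg_right this.le hlam0.le
      calc (L : ℝ) * lam ≤ (10 * (s : ℝ) * n / lam + 1) * lam := h2
        _ = 10 * s * n + lam := by field_simp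
    set j : ℕ := (n + L - 1) / L with hj
    have hdm := Nat.div_add_mod (n + L - 1) L
    have hml := Nat.mod_lt (n + L - 1) (show 0 < L by omega)
    rw [← hj] at hdm
    have hjlo : n ≤ j * L := by
      rw [Nat.mul_comm]
      omega
    have hjhi : j * L < n + L := by
      rw [Nat.mul_comm]
      omega
    obtain ⟨J, hJr, hNJ⟩ := h L j hL1 hjlo hjhi
    have hJ : (J : ℝ) ≤ 3 * R := by
      have h1 : Real.log ((3 / 2 : ℝ) ^ J) ≤ R := Real.log_le_log (by positivity) hJr
      rw [Real.log_pow] at h1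
      have h2 : (1 / 3 : ℝ) ≤ Real.log (3 / 2) := by
        have := Real.one_sub_inv_le_log_of_pos (show (0 : ℝ) < 3 / 2 by norm_num)
        norm_num at this ⊢
        exact this
      have h3 : (J : ℝ) * (1 / 3) ≤ J * Real.log (3 / 2) :=
        mul_le_mul_of_nonneg_left h2 (Nat.cast_nonneg J)
      linarith
    have hmain : lam ≤ (4 * (s * (j + 1)) + j) * Real.log 2 + L * J * el := by
      have h1 : (N : ℝ) ≤ (16 : ℝ) ^ (s * (j + 1)) * 2 ^ j * (b : ℝ) ^ (L * J) := by
        exact_mod_cast hNJ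
      have h2 := Real.log_le_log (by linarith : (0 : ℝ) < N) h1
      have h16 : Real.log (16 : ℝ) = 4 * Real.log 2 := by
        rw [show (16 : ℝ) = 2 ^ 4 by norm_num, Real.log_pow]
        norm_num
      rw [Real.log_mul (by positivity) (by positivity), Real.log_mul (by positivity) (by positivity),
        Real.log_pow, Real.log_pow, Real.log_pow, h16] at h2
      push_cast at h2
      calc lam ≤ _ := h2
        _ = (4 * (s * (j + 1)) + j) * Real.log 2 + L * J * el := by ring
    have hL1' : (1 : ℝ) ≤ L := by exact_mod_cast hL1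
    have hjL : (j : ℝ) * L ≤ n + L := by exact_mod_cast hjhi.le
    -- multiply by L
    have h4 : lam * L ≤ (5 * s * n + 9 * s * L) * Real.log 2 + 3 * R * el * L ^ 2 := by
      have h5 : lam * L ≤ ((4 * (s * (j + 1)) + j) * Real.log 2 + L * J * el) * L :=
        mul_le_mul_of_nonneg_right hmain (by linarith)
      have h6 : ((4 * ((s : ℝ) * (j + 1)) + j) * L) ≤ 5 * s * n + 9 * s * L := by
        have e1 : ((4 * ((s : ℝ) * (j + 1)) + j) * L) = 4 * s * (j * L) + 4 * s * L + j * L := by ring
        rw [e1]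
        have e2 : 4 * (s : ℝ) * (j * L) ≤ 4 * s * (n + L) :=
          mul_le_mul_of_nonneg_left hjL (by positivity)
        have e3 : (n : ℝ) + L ≤ s * (n + L) := by
          have : (0 : ℝ) ≤ (s - 1) * (n + L) := mul_nonneg (by linarith) (by linarith)
          linarith [this, (by ring : ((s : ℝ) - 1) * (n + L) = s * (n + L) - (n + L))]
        linarith [(by ring : 4 * (s : ℝ) * (n + L) = 4 * s * n + 4 * s * L),
          (by ring : (s : ℝ) * (n + L) = s * n + s * L)]
      have h7 : ((4 * ((s : ℝ) * (j + 1)) + j) * L) * Real.log 2 ≤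
          (5 * s * n + 9 * s * L) * Real.log 2 := mul_le_mul_of_nonneg_right h6 (by linarith)
      have h8 : (L : ℝ) * J * el * L ≤ 3 * R * el * L ^ 2 := by
        calc (L : ℝ) * J * el * L = J * (el * L ^ 2) := by ring
          _ ≤ 3 * R * (el * L ^ 2) := mul_le_mul_of_nonneg_right hJ (by positivity)
          _ = 3 * R * el * L ^ 2 := by ring
      calc lam * L ≤ ((4 * (s * (j + 1)) + j) * Real.log 2 + L * J * el) * L := h5
        _ = ((4 * ((s : ℝ) * (j + 1)) + j) * L) * Real.log 2 + L * J * el * L := by ring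
        _ ≤ _ := add_le_add h7 h8
    have h9 : (5 * (s : ℝ) * n + 9 * s * L) * Real.log 2 ≤ (11 / 23) * (lam * L) := by
      have e1 : (s : ℝ) ≤ lam / 48 := by linarith
      have e2 : 9 * (s : ℝ) * L ≤ 9 * (lam / 48) * L := by
        refine mul_le_mul_of_nonneg_right ?_ (by linarith)
        linarith
      have e3 : 5 * (s : ℝ) * n + 9 * s * L ≤ (11 / 16) * (lam * L) := by
        linarith [(by ring : 9 * (lam / 48) * (L : ℝ) = (3 / 16) * (lam * L)),
          (by ring : 10 * (s : ℝ) * n = 2 * (5 * s * n)), (by ring : (L : ℝ) * lam = lam * L)]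
      have e4 : (0 : ℝ) ≤ lam * L := by positivity
      calc (5 * (s : ℝ) * n + 9 * s * L) * Real.log 2 ≤ ((11 / 16) * (lam * L)) * (16 / 23) :=
            mul_le_mul e3 (by linarith) (by linarith) (by linarith)
        _ = (11 / 23) * (lam * L) := by ring
    have h10 : (12 / 23) * lam * L ≤ 3 * R * el * L * L := by
      linarith [(by ring : (12 / 23) * lam * (L : ℝ) = (12 / 23) * (lam * L)),
        (by ring : 3 * R * el * (L : ℝ) * L = 3 * R * el * L ^ 2)]
    have h11 : (12 / 23) * lam ≤ 3 * R * el * L := le_of_mul_le_mul_right h10 (by linarith)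
    have h12 : (12 / 23) * lam ^ 2 ≤ 3 * R * el * (10 * s * n + n * el) := by
      calc (12 / 23) * lam ^ 2 = ((12 / 23) * lam) * lam := by ring
        _ ≤ (3 * R * el * L) * lam := mul_le_mul_of_nonneg_right h11 hlam0.le
        _ = 3 * R * el * (L * lam) := by ring
        _ ≤ 3 * R * el * (10 * s * n + n * el) := by
          refine mul_le_mul_of_nonneg_left ?_ (by positivity)
          linarith
    have h13 : (0 : ℝ) ≤ R * el * n := by positivity
    have h14 : (0 : ℝ) ≤ (R * el * n) * s := by positivity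
    have h15 : (0 : ℝ) ≤ (R * el * n) * el := by positivity
    linarith [(by ring : 3 * R * el * (10 * (s : ℝ) * n + n * el) =
        30 * ((R * el * n) * s) + 3 * ((R * el * n) * el)),
      (by ring : 70 * ((s : ℝ) + el) * (n * el) * R =
        70 * ((R * el * n) * s) + 70 * ((R * el * n) * el))]

end Pool.Agent.Helper1.MP
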