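import Pool.Agent.Helper1.MP.Mem

/-!
# Choices of representations, and elements, selected by automata with few states
-/

namespace Pool.Agent.Helper1.MP

open Finset Matrix
open Pool.Agent.Helper84.MP
open Pool.Agent.Helper84.TN (value value_injective rk SuppRank card_le_of_suppRank cube_of_box bd)
open Pool.Agent.Helper82.CF (rep rep_finite cube)
open Pool.Agent.Helper12.MP (exists_word value_lt)

/-- On the numbers below `b ^ n` the function `f` is computed by an automaton with `s` states which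
reads the `n` base `b` digits of `c`, the lowest digit first, with weights in the field `K`: `f c`
is the product of `s × s` matrices `M i d` (`d` the digit at position `i`) between two vectors. The
matrices may depend on the position `i`. -/
def Aut {K : Type} [Field K] (b n s : ℕ) (f : ℕ → K) : Prop :=
  ∃ (M : Fin n → Fin b → Matrix (Fin s) (Fin s) K) (u v : Fin s → K),
    ∀ w : Fin n → Fin b, f (value w) = u ⬝ᵥ (List.ofFn fun i => M i (w i)).prod.mulVec v

/-- The same for functions of two numbers: the automaton reads the digits of both. -/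
def Aut2 {K : Type} [Field K] (b n s : ℕ) (f : ℕ → ℕ → K) : Prop :=
  ∃ (M : Fin n → Fin b → Fin b → Matrix (Fin s) (Fin s) K) (u v : Fin s → K),
    ∀ w w' : Fin n → Fin b,
      f (value w) (value w') = u ⬝ᵥ (List.ofFn fun i => M i (w i) (w' i)).prod.mulVec v

theorem ofFn_prod_nat {K β : Type*} [Field K] [Fintype β] [DecidableEq β] {s : ℕ}
    (M : ℕ → β → Matrix (Fin s) (Fin s) K) (n : ℕ) (w : Fin n → β) :
    (List.ofFn fun i : Fin n => M i (w i)).prod = mpr M n w := by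
  induction n with
  | zero => simp [mpr_zero]
  | succ n ih =>
    rw [List.ofFn_succ', List.concat_eq_append, List.prod_append, List.prod_singleton, mpr_succ,
      ← ih (fun i => w i.castSucc)]
    rfl

theorem ofFn_prod_fin {K β : Type*} [Field K] [Fintype β] [DecidableEq β] {s n : ℕ}
    (M : Fin n → β → Matrix (Fin s) (Fin s) K) (w : Fin n → β) :
    (List.ofFn fun i : Fin n => M i (w i)).prod =
      mpr (fun i c => if h : i < n then M ⟨i, h⟩ c else 1) n w := by
  rw [← ofFn_prod_nat]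
  congr 2
  funext i
  rw [dif_pos i.2]

/-- **The bound for choices**, words of pairs of digits. -/
theorem choice_words {A : Set ℕ} {b n k s : ℕ} (hb : 2 ≤ b) (hn : 1 ≤ n)
    (hr : ∀ m, rep A m < 2 ^ (k + 1)) {S' : Finset (Fin n → Fin b × Fin b)}
    (hA : ∀ w ∈ S', (value fun t => (w t).2) ≤ (value fun t => (w t).1) ∧
      (value fun t => (w t).2) ∈ A ∧ (value fun t => (w t).1) - (value fun t => (w t).2) ∈ A)
    (hsupp : ∀ j, SuppRank S' (ini n j) s) :
    S'.card ≤ (n * (b * b + 1)) ^ (2 * k + 1) * (max s (b * b)) ^ (3 * (2 ^ (2 * k + 1) - 1)) := by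
  classical
  rcases S'.eq_empty_or_nonempty with he | ⟨z, hz⟩
  · rw [he]
    simp
  obtain ⟨T, hT, hset, hblocks⟩ := Helper29.MP.exists_path n n hn le_rfl
  have huniv : T.set = univ := by
    rw [hset]
    exact Finset.filter_true_of_mem fun i _ => i.2
  have hm0 : 1 ≤ max s (b * b) := le_max_of_le_right (by nlinarith)
  have hcardβ : Fintype.card (Fin b × Fin b) = b * b := by
    rw [Fintype.card_prod, Fintype.card_fin]
  have hrk : ∀ D ∈ T.blocks, SuppRank S' D (max s (b * b)) := by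
    intro D hD
    rcases hblocks D hD with ⟨j, rfl⟩ | ⟨i, rfl⟩
    · obtain ⟨F, hF, f, hf, h⟩ := hsupp j
      exact ⟨F, hF, f, hf, h.trans (le_max_left _ _)⟩
    · obtain ⟨F, hF, f, hf, -⟩ := hsupp 0
      refine ⟨F, hF, f, hf, (rk_single f i).trans ?_⟩
      rw [hcardβ]
      exact le_max_right _ _
  have h1 := card_le_of_suppRank z T hT huniv (2 * k + 1) (max s (b * b)) S' hm0 hrk (by
    intro hbox
    set e : Fin n → Fin b × Fin b → ℤ × ℤ := fun i d =>
      ((((d.1 : ℕ) * b ^ (i : ℕ) : ℕ) : ℤ), (((d.2 : ℕ) * b ^ (i : ℕ) : ℕ) : ℤ)) with he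
    have hval : ∀ w : Fin n → Fin b × Fin b, ∑ i, e i (w i) =
        (((value fun i => (w i).1 : ℕ) : ℤ), ((value fun i => (w i).2 : ℕ) : ℤ)) := by
      intro w
      refine Prod.ext ?_ ?_
      · rw [Prod.fst_sum]
        simp only [value, Nat.cast_sum, he]
      · rw [Prod.snd_sum]
        simp only [value, Nat.cast_sum, he]
    have hinj : Function.Injective fun w : Fin n → Fin b × Fin b => ∑ i, e i (w i) := by
      intro w w' h
      simp only [hval, Prod.mk.injEq] at h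
      obtain ⟨h1, h2⟩ := h
      have h3 := value_injective (Nat.cast_injective h1)
      have h4 := value_injective (Nat.cast_injective h2)
      funext i
      exact Prod.ext (congrFun h3 i) (congrFun h4 i)
    obtain ⟨g, l, hl, hc, hsub⟩ := cube_of_box e hinj z _ _ hbox
    refine no_cube2 hr (S := S'.image fun w => ∑ i, e i (w i)) ?_ g l hl (by rw [hc, hl]) ?_
    · intro y hy
      obtain ⟨w, hw, rfl⟩ := Finset.mem_image.1 hy
      have h2 := hA _ hw
      exact ⟨_, _, hval w, h2.1, h2.2.1, h2.2.2⟩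
    · intro y hy
      obtain ⟨w, hw, rfl⟩ := hsub y hy
      exact Finset.mem_image.2 ⟨w, hw, rfl⟩)
  rw [bd, Fintype.card_fin, hcardβ] at h1
  exact h1

/-- **The bound for elements**, words of digits. -/
theorem elem_words {A : Set ℕ} {b n k s : ℕ} (hb : 2 ≤ b) (hn : 1 ≤ n)
    (hr : ∀ m, rep A m < 2 ^ (k + 1)) {S' : Finset (Fin n → Fin b)}
    (hA : ∀ w ∈ S', value w ∈ A) (hsupp : ∀ j, SuppRank S' (ini n j) s) :
    S'.card ≤ (n * (b + 1)) ^ k * (max s b) ^ (3 * (2 ^ k - 1)) := by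
  classical
  obtain ⟨T, hT, hset, hblocks⟩ := Helper29.MP.exists_path n n hn le_rfl
  have huniv : T.set = univ := by
    rw [hset]
    exact Finset.filter_true_of_mem fun i _ => i.2
  have hrk : ∀ D ∈ T.blocks, SuppRank S' D (max s b) := by
    intro D hD
    rcases hblocks D hD with ⟨j, rfl⟩ | ⟨i, rfl⟩
    · obtain ⟨F, hF, f, hf, h⟩ := hsupp j
      exact ⟨F, hF, f, hf, h.trans (le_max_left _ _)⟩
    · obtain ⟨F, hF, f, hf, -⟩ := hsupp 0
      exact ⟨F, hF, f, hf, (Helper29.MP.rk_singleton f i).trans (le_max_right _ _)⟩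
  exact Helper84.TN.supp_int_bound (A := A) (x := b ^ n) (k := k) T hT huniv S'
    (le_max_of_le_right (by omega)) hrk
    (fun w hw => ⟨hA _ hw, (value_lt w).le⟩) (fun m _ => hr m)

/-- **Choices by automata**, explicit bound. -/
theorem aut2_card {A : Set ℕ} {b n k s : ℕ} (hb : 2 ≤ b) (hn : 1 ≤ n)
    (hr : ∀ m, rep A m < 2 ^ (k + 1)) {K : Type} [Field K] {f : ℕ → ℕ → K} (hf : Aut2 b n s f)
    (hA : ∀ c a, c < b ^ n → a < b ^ n → f c a ≠ 0 → a ∈ A ∧ ∃ a' ∈ A, a + a' = c) :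
    {c | c < b ^ n ∧ ∃ a < b ^ n, f c a ≠ 0}.ncard ≤
      (n * (b * b + 1)) ^ (2 * k + 1) * (max s (b * b)) ^ (3 * (2 ^ (2 * k + 1) - 1)) := by
  classical
  obtain ⟨M, u, v, hM⟩ := hf
  set F : (Fin n → Fin b × Fin b) → K := fun w =>
    f (value fun t => (w t).1) (value fun t => (w t).2) with hF
  set S' : Finset (Fin n → Fin b × Fin b) := Finset.univ.filter fun w => F w ≠ 0 with hS'
  have hmem : ∀ w, w ∈ S' ↔ F w ≠ 0 := by
    intro w
    rw [hS', mem_filter]
    simp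
  have hFe : F = fun w => u ⬝ᵥ (mpr (fun i (d : Fin b × Fin b) =>
      if h : i < n then M ⟨i, h⟩ d.1 d.2 else 1) n w).mulVec v := by
    funext w
    rw [hF]
    simp only
    rw [hM, ← ofFn_prod_fin (fun i (d : Fin b × Fin b) => M i d.1 d.2) w]
  have h1 := choice_words (S' := S') (s := s) hb hn hr (fun w hw => by
      have h2 := (hmem w).1 hw
      obtain ⟨h3, a', h4, h5⟩ := hA _ _ (value_lt _) (value_lt _) h2
      have e : (value fun t => (w t).1) - (value fun t => (w t).2) = a' := by omega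
      rw [e]
      exact ⟨by omega, h3, h4⟩) (fun j => ⟨K, inferInstance, F, fun w => (hmem w).symm, by
      rw [hFe]
      exact rk_mpr _ u v j⟩)
  refine le_trans ?_ h1
  have h2 : {c | c < b ^ n ∧ ∃ a < b ^ n, f c a ≠ 0} ⊆
      ((S'.image fun w => value fun t => (w t).1 : Finset ℕ) : Set ℕ) := by
    rintro c ⟨hc, a, ha, hca⟩
    obtain ⟨w, rfl⟩ := exists_word (b := b) (n := n) hc
    obtain ⟨w', rfl⟩ := exists_word (b := b) (n := n) ha
    rw [Finset.mem_coe, Finset.mem_image]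
    exact ⟨fun t => (w t, w' t), (hmem _).2 hca, rfl⟩
  refine (Set.ncard_le_ncard h2 (Finset.finite_toSet _)).trans ?_
  rw [Set.ncard_coe_finset]
  exact Finset.card_image_le

/-- **Elements chosen by automata**, explicit bound. -/
theorem aut_card {A : Set ℕ} {b n k s : ℕ} (hb : 2 ≤ b) (hn : 1 ≤ n)
    (hr : ∀ m, rep A m < 2 ^ (k + 1)) {K : Type} [Field K] {f : ℕ → K} (hf : Aut b n s f)
    (hA : ∀ a, a < b ^ n → f a ≠ 0 → a ∈ A) :
    {a | a < b ^ n ∧ f a ≠ 0}.ncard ≤
      (n * (b + 1)) ^ k * (max s b) ^ (3 * (2 ^ k - 1)) := by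
  classical
  obtain ⟨M, u, v, hM⟩ := hf
  set F : (Fin n → Fin b) → K := fun w => f (value w) with hF
  set S' : Finset (Fin n → Fin b) := Finset.univ.filter fun w => F w ≠ 0 with hS'
  have hmem : ∀ w, w ∈ S' ↔ F w ≠ 0 := by
    intro w
    rw [hS', mem_filter]
    simp
  have hFe : F = fun w => u ⬝ᵥ (mpr (fun i (d : Fin b) =>
      if h : i < n then M ⟨i, h⟩ d else 1) n w).mulVec v := by
    funext w
    rw [hF]
    simp only
    rw [hM, ← ofFn_prod_fin M w]
  have h1 := elem_words (S' := S') (s := s) hb hn hr (fun w hw =>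
      hA _ (value_lt _) ((hmem w).1 hw)) (fun j => ⟨K, inferInstance, F, fun w => (hmem w).symm, by
      rw [hFe]
      exact rk_mpr _ u v j⟩)
  refine le_trans ?_ h1
  have h2 : {a | a < b ^ n ∧ f a ≠ 0} ⊆ ((S'.image value : Finset ℕ) : Set ℕ) := by
    rintro a ⟨ha, hfa⟩
    obtain ⟨w, rfl⟩ := exists_word (b := b) (n := n) ha
    rw [Finset.mem_coe, Finset.mem_image]
    exact ⟨w, (hmem _).2 hfa, rfl⟩
  refine (Set.ncard_le_ncard h2 (Finset.finite_toSet _)).trans ?_
  rw [Set.ncard_coe_finset]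
  exact Finset.card_image_le

/-- **Choices by automata.** If `r_A ≤ g`, an automaton which selects representations in `A` of
`b ^ (d n)` of the numbers below `b ^ n` has at least `b ^ (c n)` states. -/
theorem aut2_grow (b g : ℕ) (d : ℝ) (hb : 2 ≤ b) (hd : 0 < d) :
    ∃ c : ℝ, 0 < c ∧ ∃ n₀ : ℕ, ∀ n ≥ n₀, ∀ A : Set ℕ, (∀ m, rep A m ≤ g) →
      ∀ (K : Type) [Field K] (s : ℕ) (f : ℕ → ℕ → K), Aut2 b n s f →
        (∀ c a, c < b ^ n → a < b ^ n → f c a ≠ 0 → a ∈ A ∧ ∃ a' ∈ A, a + a' = c) →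
        (b : ℝ) ^ (d * n) ≤ {c | c < b ^ n ∧ ∃ a < b ^ n, f c a ≠ 0}.ncard →
        (b : ℝ) ^ (c * n) ≤ s := by
  have hE : 1 ≤ 3 * (2 ^ (2 * g + 1) - 1) := by
    have : 2 ^ 1 ≤ 2 ^ (2 * g + 1) := Nat.pow_le_pow_right (by norm_num) (by omega)
    omega
  obtain ⟨n₀, hn₀⟩ := asym hb hd (b * b + 1) (2 * g + 1) (3 * (2 ^ (2 * g + 1) - 1)) (b * b) hE
  have hE0 : (0 : ℝ) < (3 * (2 ^ (2 * g + 1) - 1) : ℕ) := by exact_mod_cast hE
  refine ⟨d / (2 * (3 * (2 ^ (2 * g + 1) - 1) : ℕ)), by positivity, n₀ + 1,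
    fun n hn A hr K _ s f hf hA hcard => hn₀ n (by omega) s (hcard.trans ?_)⟩
  have h1 := aut2_card (k := g) hb (by omega : 1 ≤ n) (fun m => (hr m).trans_lt
    ((Nat.lt_two_pow_self).trans (Nat.pow_lt_pow_right (by norm_num) (by omega)))) hf hA
  exact_mod_cast h1

/-- **Elements chosen by automata.** If `r_A ≤ g`, an automaton which selects `b ^ (d n)` elements
of `A` below `b ^ n` has at least `b ^ (c n)` states. -/
theorem aut_grow (b g : ℕ) (d : ℝ) (hb : 2 ≤ b) (hd : 0 < d) :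
    ∃ c : ℝ, 0 < c ∧ ∃ n₀ : ℕ, ∀ n ≥ n₀, ∀ A : Set ℕ, (∀ m, rep A m ≤ g) →
      ∀ (K : Type) [Field K] (s : ℕ) (f : ℕ → K), Aut b n s f →
        (∀ a, a < b ^ n → f a ≠ 0 → a ∈ A) →
        (b : ℝ) ^ (d * n) ≤ {a | a < b ^ n ∧ f a ≠ 0}.ncard → (b : ℝ) ^ (c * n) ≤ s := by
  have hE : 1 ≤ 3 * (2 ^ (g + 1) - 1) := by
    have : 2 ^ 1 ≤ 2 ^ (g + 1) := Nat.pow_le_pow_right (by norm_num) (by omega)
    omega
  obtain ⟨n₀, hn₀⟩ := asym hb hd (b + 1) (g + 1) (3 * (2 ^ (g + 1) - 1)) b hE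
  have hE0 : (0 : ℝ) < (3 * (2 ^ (g + 1) - 1) : ℕ) := by exact_mod_cast hE
  refine ⟨d / (2 * (3 * (2 ^ (g + 1) - 1) : ℕ)), by positivity, n₀ + 1,
    fun n hn A hr K _ s f hf hA hcard => hn₀ n (by omega) s (hcard.trans ?_)⟩
  have h1 := aut_card (k := g + 1) hb (by omega : 1 ≤ n) (fun m => (hr m).trans_lt
    ((Nat.lt_two_pow_self).trans (Nat.pow_lt_pow_right (by norm_num) (by omega)))) hf hA
  exact_mod_cast h1

end Pool.Agent.Helper1.MP
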