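import Pool.Agent.Helper1.MP.Reg2
import Pool.Agent.Helper29.MP.RegBdd

/-!
# Regular choices of representations, bounded case
-/

namespace Pool.Agent.Helper1.MP

open Finset Matrix
open Pool.Agent.Helper84.TN (value value_injective size rk row low_rank)
open Pool.Agent.Helper82.CF (rep rep_finite cube cube_symm cube_nonempty)
open Pool.Agent.Helper12.MP (exists_word value_lt)
open scoped Pointwise

theorem rk_mpr {K β : Type*} [Field K] [Fintype β] [DecidableEq β] {s n : ℕ}
    (M : ℕ → β → Matrix (Fin s) (Fin s) K) (u v : Fin s → K) (k : ℕ) :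
    rk (fun w : Fin n → β => u ⬝ᵥ (mpr M n w).mulVec v)
      (univ.filter fun i : Fin n => (i : ℕ) < k) ≤ s := by
  set D : Finset (Fin n) := univ.filter fun i : Fin n => (i : ℕ) < k with hD
  set P := mpr (fun i c => if i < k then M i c else 1) n with hP
  set Q := mpr (fun i c => if i < k then 1 else M i c) n with hQ
  let g : Fin s → ((Fin n → β) → K) := fun a x => ((Q x).mulVec v) a
  have hle : Submodule.span K (Set.range (row (fun w : Fin n → β =>
      u ⬝ᵥ (mpr M n w).mulVec v) D)) ≤ Submodule.span K (Set.range g) := by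
    rw [Submodule.span_le]
    rintro _ ⟨x, rfl⟩
    have hrow : row (fun w : Fin n → β => u ⬝ᵥ (mpr M n w).mulVec v) D x =
        ∑ a, (Matrix.vecMul u (P x)) a • g a := by
      funext w
      simp only [Helper84.TN.row, Finset.sum_apply, Pi.smul_apply, smul_eq_mul, g]
      have h1 : P (D.piecewise x w) = P x := by
        refine mpr_congr _ (fun i => i < k) (fun i hi c => if_neg hi) n _ _ fun i hi => ?_
        rw [Finset.piecewise_eq_of_mem]
        simp only [hD, Finset.mem_filter, Finset.mem_univ, true_and]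
        exact hi
      have h2 : Q (D.piecewise x w) = Q w := by
        refine mpr_congr _ (fun i => ¬ i < k) (fun i hi c => ?_) n _ _ fun i hi => ?_
        · exact if_pos (not_not.1 hi)
        · rw [Finset.piecewise_eq_of_notMem]
          simp only [hD, Finset.mem_filter, Finset.mem_univ, true_and]
          exact hi
      rw [mpr_split M k n, ← hP, ← hQ, h1, h2, ← Matrix.mulVec_mulVec, Matrix.dotProduct_mulVec]
      simp only [dotProduct]
    rw [hrow]
    exact Submodule.sum_mem _ fun a _ => Submodule.smul_mem _ _ (Submodule.subset_span ⟨a, rfl⟩)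
  haveI : Module.Finite K (Submodule.span K (Set.range g)) :=
    FiniteDimensional.span_of_finite K (Set.finite_range g)
  calc rk (fun w : Fin n → β => u ⬝ᵥ (mpr M n w).mulVec v) D
      ≤ Module.finrank K (Submodule.span K (Set.range g)) := Submodule.finrank_mono hle
    _ ≤ Fintype.card (Fin s) := finrank_range_le_card g
    _ = s := Fintype.card_fin s

theorem rk_single {K β : Type*} [Field K] [Fintype β] [DecidableEq β] {n : ℕ}
    (f : (Fin n → β) → K) (i : Fin n) : rk f {i} ≤ Fintype.card β := by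
  classical
  let g : β → ((Fin n → β) → K) := fun c w => f (Function.update w i c)
  have h1 : Submodule.span K (Set.range (row f {i})) ≤ Submodule.span K (Set.range g) := by
    refine Submodule.span_mono ?_
    rintro _ ⟨v, rfl⟩
    refine ⟨v i, ?_⟩
    funext w
    simp only [g, Helper84.TN.row]
    congr 1
    funext j
    by_cases hj : j = i
    · subst hj
      simp [Finset.piecewise]
    · simp [Finset.piecewise, hj]
  haveI : Module.Finite K (Submodule.span K (Set.range g)) :=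
    FiniteDimensional.span_of_finite K (Set.finite_range g)
  unfold rk
  exact (Submodule.finrank_mono h1).trans (finrank_range_le_card g)

theorem no_cube2 {A : Set ℕ} {k : ℕ} (hr : ∀ m, rep A m < 2 ^ (k + 1)) {S : Finset (ℤ × ℤ)}
    (hS : ∀ z ∈ S, ∃ c a : ℕ, z = ((c : ℤ), (a : ℤ)) ∧ a ≤ c ∧ a ∈ A ∧ c - a ∈ A)
    (g : ℤ × ℤ) (l : List (ℤ × ℤ)) (hl : l.length = 2 * k + 1 + 1)
    (hc : (cube l).card = 2 ^ l.length) : ¬ ({g} + cube l ⊆ S) := by
  intro hs
  set Q : Finset (ℤ × ℤ) := {g} + cube l with hQ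
  set t : ℤ × ℤ := g + g + l.sum with ht
  have hsym : ∀ z ∈ Q, t - z ∈ Q := by
    intro z hz
    rw [hQ, Finset.mem_add] at hz ⊢
    obtain ⟨y, hy, w, hw, rfl⟩ := hz
    rw [Finset.mem_singleton] at hy
    subst hy
    exact ⟨y, Finset.mem_singleton_self _, l.sum - w, cube_symm l w hw, by rw [ht]; abel⟩
  set φ : ℤ × ℤ → (ℕ × ℕ) × (ℕ × ℕ) := fun z => ((z.2.toNat, (t - z).2.toNat),
    ((z.1 - z.2).toNat, ((t - z).1 - (t - z).2).toNat)) with hφ
  have hcard : Q.card = 2 ^ (2 * k + 1 + 1) := by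
    rw [hQ, Finset.card_singleton_add, hc, hl]
  have hinj : Set.InjOn φ Q := by
    intro z hz w hw h
    obtain ⟨c, a, rfl, h1, -⟩ := hS z (hs hz)
    obtain ⟨c', a', rfl, h1', -⟩ := hS w (hs hw)
    simp only [hφ, Prod.mk.injEq] at h
    obtain ⟨⟨h2, -⟩, h3, -⟩ := h
    refine Prod.ext ?_ ?_
    · change (c : ℤ) = c'
      omega
    · change (a : ℤ) = a'
      omega
  have hmem : ∀ z ∈ Q, φ z ∈ ({p : ℕ × ℕ | p.1 ∈ A ∧ p.2 ∈ A ∧ p.1 + p.2 = t.2.toNat} : Set _) ×ˢ
      ({p : ℕ × ℕ | p.1 ∈ A ∧ p.2 ∈ A ∧ p.1 + p.2 = (t.1 - t.2).toNat} : Set _) := by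
    intro z hz
    obtain ⟨c, a, hz1, h1, h2, h3⟩ := hS z (hs hz)
    obtain ⟨c', a', hz2, h1', h2', h3'⟩ := hS (t - z) (hs (hsym z hz))
    have e1 : z.1 = c := by rw [hz1]
    have e2 : z.2 = a := by rw [hz1]
    have e3 : (t - z).1 = c' := by rw [hz2]
    have e4 : (t - z).2 = a' := by rw [hz2]
    have e5 : t.1 = (c : ℤ) + c' := by
      have : (t - z).1 = t.1 - z.1 := rfl
      omega
    have e6 : t.2 = (a : ℤ) + a' := by
      have : (t - z).2 = t.2 - z.2 := rfl
      omega
    have f1 : z.2.toNat = a := by rw [e2]; exact Int.toNat_natCast a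
    have f2 : (t - z).2.toNat = a' := by rw [e4]; exact Int.toNat_natCast a'
    have f3 : (z.1 - z.2).toNat = c - a := by rw [e1, e2]; omega
    have f4 : ((t - z).1 - (t - z).2).toNat = c' - a' := by rw [e3, e4]; omega
    simp only [hφ, f1, f2, f3, f4]
    refine ⟨⟨h2, h2', ?_⟩, ⟨h3, h3', ?_⟩⟩
    · simp only
      omega
    · simp only
      omega
  have hle : Q.card ≤ rep A t.2.toNat * rep A (t.1 - t.2).toNat := by
    unfold rep
    rw [← Set.ncard_prod, ← Finset.card_image_of_injOn hinj, ← Set.ncard_coe_finset]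
    refine Set.ncard_le_ncard ?_ ((rep_finite A _).prod (rep_finite A _))
    intro y hy
    rw [Finset.mem_coe, Finset.mem_image] at hy
    obtain ⟨z, hz, rfl⟩ := hy
    exact hmem z hz
  have h1 := hr t.2.toNat
  have h2 := hr (t.1 - t.2).toNat
  have h3 : rep A t.2.toNat * rep A (t.1 - t.2).toNat < 2 ^ (k + 1) * 2 ^ (k + 1) :=
    Nat.mul_lt_mul'' h1 h2
  rw [hcard] at hle
  have h4 : 2 ^ (k + 1) * 2 ^ (k + 1) = 2 ^ (2 * k + 1 + 1) := by
    rw [← pow_add]
    congr 1
    ring
  omega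

/-- **Regular choices, bounded case.** -/
theorem regular_choice_bdd {K : Type*} [Field K] {A : Set ℕ} {b s k : ℕ} (hb : 2 ≤ b)
    (f : ℕ → ℕ → K) (hf : IsRegular2 b s f)
    (hA : ∀ c a, f c a ≠ 0 → a ≤ c ∧ a ∈ A ∧ c - a ∈ A) (hr : ∀ m, rep A m < 2 ^ (k + 1)) :
    ∃ C : ℝ, 0 < C ∧ ∀ x : ℕ, 2 ≤ x →
      (({p | p.1 < x ∧ f p.1 p.2 ≠ 0} : Set (ℕ × ℕ)).ncard : ℝ) ≤
        C * Real.log x ^ (2 * k + 1) := by
  classical
  have hl2 : 0 < Real.log 2 := Real.log_pos (by norm_num)
  set C₁ : ℝ := 2 / Real.log 2 * (b * b + 1) with hC₁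
  set C₂ : ℝ := ((max s (b * b) : ℕ) : ℝ) ^ (3 * (2 ^ (2 * k + 1) - 1)) with hC₂
  have hb0 : (2 : ℝ) ≤ b := by exact_mod_cast hb
  have hC₁0 : 0 < C₁ := by positivity
  have hm0 : 0 < max s (b * b) := lt_max_of_lt_right (by nlinarith)
  have hC₂0 : 0 < C₂ := by
    have : (0 : ℝ) < ((max s (b * b) : ℕ) : ℝ) := by exact_mod_cast hm0
    positivity
  refine ⟨C₁ ^ (2 * k + 1) * C₂, by positivity, fun x hx => ?_⟩
  set n : ℕ := Nat.clog b x with hn
  have hn1 : x ≤ b ^ n := Nat.le_pow_clog (by omega) x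
  have hnpos : 0 < n := Nat.clog_pos (by omega) (by omega)
  have hn2 : b ^ (n - 1) < x := Nat.pow_pred_clog_lt_self (by omega) (by omega)
  obtain ⟨T, hT, hset, hblocks⟩ := Helper29.MP.exists_path n n hnpos le_rfl
  have huniv : T.set = univ := by
    rw [hset]
    exact Finset.filter_true_of_mem fun i _ => i.2
  obtain ⟨M, u, v, hM⟩ := hf
  set F : (Fin n → Fin b × Fin b) → K :=
    fun w => f (value fun i => (w i).1) (value fun i => (w i).2) with hF
  have hFM : F = fun w => u ⬝ᵥ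
      (mpr (fun _ (c : Fin b × Fin b) => M c.1 c.2) n w).mulVec v := by
    funext w
    rw [hF, ← ofFn_prod (fun c : Fin b × Fin b => M c.1 c.2) n w]
    exact hM n (fun i => (w i).1) fun i => (w i).2
  have hcardβ : Fintype.card (Fin b × Fin b) = b * b := by
    rw [Fintype.card_prod, Fintype.card_fin]
  have hrk : ∀ D ∈ T.blocks, rk F D ≤ max s (b * b) := by
    intro D hD
    rcases hblocks D hD with ⟨j, rfl⟩ | ⟨i, rfl⟩
    · rw [hFM]
      exact (rk_mpr _ u v j).trans (le_max_left _ _)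
    · refine (rk_single F i).trans ?_
      rw [hcardβ]
      exact le_max_right _ _
  set e : Fin n → Fin b × Fin b → ℤ × ℤ := fun i d =>
    ((((d.1 : ℕ) * b ^ (i : ℕ) : ℕ) : ℤ), (((d.2 : ℕ) * b ^ (i : ℕ) : ℕ) : ℤ)) with he
  have hval : ∀ w : Fin n → Fin b × Fin b, ∑ i, e i (w i) =
      (((value fun i => (w i).1 : ℕ) : ℤ), ((value fun i => (w i).2 : ℕ) : ℤ)) := by
    intro w
    refine Prod.ext ?_ ?_
    · rw [Prod.fst_sum]
      simp only [value, Nat.cast_sum, he]
    · rw [Prod.snd_sum]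
      simp only [value, Nat.cast_sum, he]
  have hinj : Function.Injective fun w : Fin n → Fin b × Fin b => ∑ i, e i (w i) := by
    intro w w' h
    simp only [hval, Prod.mk.injEq] at h
    obtain ⟨h1, h2⟩ := h
    have h3 := value_injective (Nat.cast_injective h1)
    have h4 := value_injective (Nat.cast_injective h2)
    funext i
    exact Prod.ext (congrFun h3 i) (congrFun h4 i)
  set S : Finset (ℤ × ℤ) := (Finset.univ.filter fun w => F w ≠ 0).image
    fun w => ∑ i, e i (w i) with hS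
  have h1 := low_rank e hinj T hT huniv F S (by
      intro w
      rw [hS, Finset.mem_image]
      constructor
      · intro h
        exact ⟨w, Finset.mem_filter.2 ⟨Finset.mem_univ _, h⟩, rfl⟩
      · rintro ⟨w', hw', h⟩
        have := hinj h
        subst this
        exact (Finset.mem_filter.1 hw').2) (by
      intro g hg
      obtain ⟨w, -, rfl⟩ := Finset.mem_image.1 hg
      exact ⟨w, rfl⟩) (max s (b * b)) (2 * k + 1) hm0 hrk (by
      intro g l hl hc
      refine no_cube2 hr ?_ g l hl hc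
      intro z hz
      obtain ⟨w, hw, rfl⟩ := Finset.mem_image.1 hz
      have h2 := hA _ _ (Finset.mem_filter.1 hw).2
      exact ⟨_, _, hval w, h2.1, h2.2.1, h2.2.2⟩)
  rw [Fintype.card_fin, hcardβ, hS, Finset.card_image_of_injective _ hinj] at h1
  have hcount : ({p | p.1 < x ∧ f p.1 p.2 ≠ 0} : Set (ℕ × ℕ)).ncard ≤
      (Finset.univ.filter fun w => F w ≠ 0).card := by
    have h1 : ({p | p.1 < x ∧ f p.1 p.2 ≠ 0} : Set (ℕ × ℕ)) ⊆
        (((Finset.univ.filter fun w : Fin n → Fin b × Fin b => F w ≠ 0).image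
          fun w => ((value fun i => (w i).1), (value fun i => (w i).2)) :
            Finset (ℕ × ℕ)) : Set (ℕ × ℕ)) := by
      rintro ⟨c, a⟩ ⟨hc, hc'⟩
      simp only at hc hc'
      obtain ⟨hac, -⟩ := hA c a hc'
      obtain ⟨w, rfl⟩ := exists_word (b := b) (n := n) (hc.trans_le hn1)
      obtain ⟨w', rfl⟩ := exists_word (b := b) (n := n) (hac.trans_lt (hc.trans_le hn1))
      rw [Finset.mem_coe, Finset.mem_image]
      exact ⟨fun i => (w i, w' i), Finset.mem_filter.2 ⟨Finset.mem_univ _, hc'⟩, rfl⟩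
    have h2 := Set.ncard_le_ncard h1
    rw [Set.ncard_coe_finset] at h2
    exact h2.trans Finset.card_image_le
  have h3 : (({p | p.1 < x ∧ f p.1 p.2 ≠ 0} : Set (ℕ × ℕ)).ncard : ℝ) ≤
      ((n : ℝ) * (b * b + 1)) ^ (2 * k + 1) * C₂ := by
    rw [hC₂]
    exact_mod_cast hcount.trans h1
  refine h3.trans ?_
  have hx1 : (2 : ℝ) ≤ x := by exact_mod_cast hx
  have hlx : Real.log 2 ≤ Real.log x := Real.log_le_log (by norm_num) hx1
  have h4 : (n : ℝ) ≤ 2 / Real.log 2 * Real.log x := by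
    have h5 : ((b : ℝ) ^ (n - 1)) < x := by exact_mod_cast hn2
    have h6 : (2 : ℝ) ^ (n - 1) ≤ x := (pow_le_pow_left₀ (by norm_num) hb0 _).trans h5.le
    have h7 := Real.log_le_log (by positivity) h6
    rw [Real.log_pow] at h7
    have h8 : ((n - 1 : ℕ) : ℝ) = (n : ℝ) - 1 := by
      rw [Nat.cast_sub (by omega)]
      norm_num
    rw [h8] at h7
    rw [div_mul_eq_mul_div, le_div_iff₀ hl2]
    linarith
  calc ((n : ℝ) * (b * b + 1)) ^ (2 * k + 1) * C₂
      ≤ (2 / Real.log 2 * Real.log x * (b * b + 1)) ^ (2 * k + 1) * C₂ := by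
        gcongr
    _ = C₁ ^ (2 * k + 1) * C₂ * Real.log x ^ (2 * k + 1) := by
        rw [hC₁, show 2 / Real.log 2 * Real.log x * ((b : ℝ) * b + 1) =
          (2 / Real.log 2 * (b * b + 1)) * Real.log x by ring, mul_pow]
        ring

end Pool.Agent.Helper1.MP
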