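import Mathlib
import Pool.Agent.Helper84.MP.Defs

/-!
The size of a set of words which are constant on most pieces.
-/

namespace Pool.Agent.Helper1.MP

open Finset

variable {ι β : Type*} [Fintype ι] [DecidableEq ι] [Fintype β] [DecidableEq β]

/-- Piece C1 -/
theorem card_state {D : ℕ → Finset ι} {j L : ℕ} (hD0 : D 0 = ∅) (hDj : D j = univ)
    (hmono : ∀ t, D t ⊆ D (t + 1)) (hL : ∀ t < j, (D (t + 1) \ D t).card ≤ L)
    (hβ : 1 ≤ Fintype.card β) {W : Finset (ι → β)} {J : Finset ℕ} (hJ : J ⊆ range j)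
    (h : ∀ t < j, t ∉ J → ∀ w ∈ W, ∀ w' ∈ W, ∀ i ∈ D (t + 1) \ D t, w i = w' i) :
    W.card ≤ Fintype.card β ^ (L * J.card) := by
  classical
  set T : Finset ι := J.biUnion fun t => D (t + 1) \ D t with hT
  have hTc : T.card ≤ L * J.card := by
    calc T.card ≤ ∑ t ∈ J, (D (t + 1) \ D t).card := Finset.card_biUnion_le
      _ ≤ ∑ _t ∈ J, L := Finset.sum_le_sum fun t ht => hL t (mem_range.1 (hJ ht))
      _ = L * J.card := by rw [Finset.sum_const, smul_eq_mul, Nat.mul_comm]
  have key : ∀ i : ι, ∃ t < j, i ∈ D (t + 1) \ D t := by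
    intro i
    have hex : ∃ t, i ∈ D t := ⟨j, by rw [hDj]; exact mem_univ i⟩
    have h1 := Nat.find_spec hex
    have h0 : Nat.find hex ≠ 0 := by
      intro h0
      rw [h0, hD0] at h1
      exact absurd h1 (Finset.notMem_empty i)
    obtain ⟨t, ht⟩ := Nat.exists_eq_succ_of_ne_zero h0
    have hle : Nat.find hex ≤ j := Nat.find_min' hex (by rw [hDj]; exact mem_univ i)
    refine ⟨t, by omega, ?_⟩
    rw [mem_sdiff]
    refine ⟨?_, Nat.find_min hex (by omega)⟩
    rw [ht] at h1
    exact h1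
  have hinj : ∀ w ∈ W, ∀ w' ∈ W, (fun i : T => w i) = (fun i : T => w' i) → w = w' := by
    intro w hw w' hw' he
    funext i
    obtain ⟨t, ht, hi⟩ := key i
    by_cases htJ : t ∈ J
    · have hiT : i ∈ T := by
        rw [hT, mem_biUnion]
        exact ⟨t, htJ, hi⟩
      exact congrFun he ⟨i, hiT⟩
    · exact h t ht htJ w hw w' hw' i hi
  have hcard : W.card ≤ Fintype.card (T → β) := by
    rw [← Finset.card_univ]
    refine Finset.card_le_card_of_injOn (fun w => fun i : T => w i) (fun w _ => mem_coe.2 (mem_univ _)) ?_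
    intro w hw w' hw' he
    exact hinj w (mem_coe.1 hw) w' (mem_coe.1 hw') he
  rw [Fintype.card_fun, Fintype.card_coe] at hcard
  exact hcard.trans (Nat.pow_le_pow_right hβ hTc)

end Pool.Agent.Helper1.MP
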