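import Pool.Agent.Helper84.MP.Bound

/-!
Functions of pairs of words of small rank at the initial segments which select representations.
-/

namespace Pool.Agent.Helper1.MP

open Finset Pool.Agent.Helper84.TN Pool.Agent.Helper84.MP
open Pool.Agent.Helper82.CF (rep rep_finite)

/-- the combinatorial theorem, for any finite alphabet -/
theorem mp_family {β K : Type*} [Fintype β] [DecidableEq β] [Field K] {n s : ℕ}
    (hb : 2 ≤ Fintype.card β) (f : (Fin n → β) → K)
    (hs : ∀ k : ℕ, crk f (univ.filter fun i : Fin n => (i : ℕ) < k) ≤ s)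
    (S : Finset (Fin n → β)) (hmem : ∀ w, w ∈ S ↔ f w ≠ 0) (h1 : 2 ≤ S.card) {r : ℝ}
    (hr : 2 ≤ r)
    (hF : ∀ (F : Finset ((Fin n → β) × (Fin n → β))) (a c : Fin n → β), F.Nonempty →
      (∀ p ∈ F, f p.1 ≠ 0 ∧ f p.2 ≠ 0 ∧
        ∀ i, (p.1 i = a i ∧ p.2 i = c i) ∨ (p.1 i = c i ∧ p.2 i = a i)) → (F.card : ℝ) ≤ r) :
    Real.log S.card ^ 2 ≤ 70 * (s + Real.log (Fintype.card β)) *
      (n * Real.log (Fintype.card β)) * Real.log r := by
  classical
  have hSne : S.Nonempty := Finset.card_pos.1 (by omega)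
  have hn : 1 ≤ n := by
    by_contra h0
    have h0' : n = 0 := by omega
    subst h0'
    have h3 : S.card ≤ 1 := by
      rw [Finset.card_le_one]
      intro a _ a' _
      exact Subsingleton.elim _ _
    omega
  have hs1 : 1 ≤ s := by
    obtain ⟨w, hw⟩ := hSne
    rw [hmem] at hw
    refine le_trans ?_ (hs 0)
    unfold crk
    rw [Nat.one_le_iff_ne_zero]
    intro h0
    have h4 : Submodule.span K (Set.range (col f (univ.filter fun i : Fin n => (i : ℕ) < 0))) =
        ⊥ := Submodule.finrank_eq_zero.1 h0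
    have h5 : col f (univ.filter fun i : Fin n => (i : ℕ) < 0) w ∈
        (⊥ : Submodule K ((Fin n → β) → K)) := by
      rw [← h4]
      exact Submodule.subset_span ⟨w, rfl⟩
    rw [Submodule.mem_bot] at h5
    have h6 := congrFun h5 w
    simp only [col, Finset.piecewise_same] at h6
    exact hw h6
  have hcard : S.card ≤ Fintype.card β ^ n := by
    calc S.card ≤ (univ : Finset (Fin n → β)).card := Finset.card_le_univ _
      _ = Fintype.card β ^ n := by rw [Finset.card_univ, Fintype.card_fun, Fintype.card_fin]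
  refine mp_arith hs1 hb hn h1 hcard hr ?_
  intro L j hL hj _
  set D : ℕ → Finset (Fin n) := fun t => univ.filter fun i : Fin n => (i : ℕ) < t * L with hD
  have hD0 : D 0 = ∅ := by
    rw [hD]
    ext i
    simp
  have hDj : D j = univ := by
    rw [hD]
    ext i
    simp only [mem_filter, mem_univ, true_and, iff_true]
    have := i.2
    omega
  have hmono : ∀ t, D t ⊆ D (t + 1) := by
    intro t i hi
    rw [hD] at hi ⊢
    simp only [mem_filter, mem_univ, true_and] at hi ⊢
    have : t * L ≤ (t + 1) * L := Nat.mul_le_mul_right _ (Nat.le_succ t)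
    omega
  have hpiece : ∀ t < j, (D (t + 1) \ D t).card ≤ L := by
    intro t _
    have h3 : (D (t + 1) \ D t).card ≤ (Finset.Ico (t * L) (t * L + L)).card := by
      refine Finset.card_le_card_of_injOn (fun i : Fin n => (i : ℕ)) ?_ ?_
      · intro i hi
        rw [mem_coe, mem_sdiff, hD] at hi
        simp only [mem_filter, mem_univ, true_and, not_lt] at hi
        simp only [mem_coe, Finset.mem_Ico]
        have e : (t + 1) * L = t * L + L := by ring
        rw [e] at hi
        exact ⟨hi.2, hi.1⟩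
      · intro i _ i' _ h
        exact Fin.ext h
    rwa [Nat.card_Ico, Nat.add_sub_cancel_left] at h3
  obtain ⟨W, V, J, g1, g2, g3, g4, g5, g6, g7, g8⟩ :=
    Helper12.MP.exists_state f D j s (fun t _ => hs (t * L)) S hSne
  obtain ⟨F, a, c, hF', hFc⟩ := exists_family hD0 hDj hmono
    (fun w hw => (hmem w).1 (g1 hw)) g2 g3 g4 g5 g6 g7
  refine ⟨J.card, ?_, ?_⟩
  · have hFne : F.Nonempty := by
      rw [← Finset.card_pos]
      by_contra h0
      have h0' : F.card = 0 := by omega
      rw [h0', Nat.mul_zero] at hFc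
      have : 0 < 3 ^ J.card := Nat.pow_pos (by norm_num)
      omega
    have hle : (F.card : ℝ) ≤ r := hF F a c hFne hF'
    have h3 : (3 : ℝ) ^ J.card ≤ 2 ^ J.card * r := by
      calc (3 : ℝ) ^ J.card ≤ 2 ^ J.card * F.card := by exact_mod_cast hFc
        _ ≤ 2 ^ J.card * r := mul_le_mul_of_nonneg_left hle (by positivity)
    rw [div_pow, div_le_iff₀ (by positivity)]
    linarith
  · exact g8.trans (Nat.mul_le_mul_left _
      (Helper84.MP.card_state hD0 hDj hmono hpiece (by omega) g3 g6))

/-- **The bound for choices.** Letters are pairs of digits; the first digits are those of `c`, the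
second digits those of `a`. -/
theorem mp_choice {K : Type*} [Field K] {A : Set ℕ} {n b s x : ℕ} (hb : 2 ≤ b)
    (f : (Fin n → Fin b × Fin b) → K)
    (hs : ∀ k : ℕ, crk f (univ.filter fun i : Fin n => (i : ℕ) < k) ≤ s)
    (hne : ∃ w, f w ≠ 0)
    (hA : ∀ w, f w ≠ 0 → (value fun i => (w i).2) ≤ (value fun i => (w i).1) ∧
      (value fun i => (w i).1) ≤ x ∧ (value fun i => (w i).2) ∈ A ∧
      (value fun i => (w i).1) - (value fun i => (w i).2) ∈ A) :
    ∃ m ≤ 2 * x, Real.log (size f) ^ 2 ≤
      280 * (s + 2 * Real.log b) * (n * Real.log b) * Real.log (rep A m) := by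
  classical
  set S : Finset (Fin n → Fin b × Fin b) := Finset.univ.filter fun w => f w ≠ 0 with hS
  have hsize : size f = S.card := by
    unfold size
    exact congrArg Finset.card (Finset.ext fun v => by simp [hS])
  have hmem : ∀ w, w ∈ S ↔ f w ≠ 0 := fun w => by simp [hS]
  have hSne : S.Nonempty := by
    obtain ⟨w, hw⟩ := hne
    exact ⟨w, (hmem w).2 hw⟩
  have hlogb : 0 ≤ Real.log b := Real.log_natCast_nonneg b
  rw [hsize]
  rcases Nat.lt_or_ge S.card 2 with h1 | h1
  · refine ⟨0, Nat.zero_le _, ?_⟩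
    have h2 : S.card = 1 := by
      have := hSne.card_pos
      omega
    rw [h2, Nat.cast_one, Real.log_one]
    have := Real.log_natCast_nonneg (rep A 0)
    have h3 : 0 ≤ 280 * (s + 2 * Real.log b) * (n * Real.log b) * Real.log (rep A 0) := by
      positivity
    simpa using h3
  obtain ⟨m, hm, hmax⟩ := Finset.exists_max_image (Finset.range (2 * x + 1)) (rep A)
    ⟨0, Finset.mem_range.2 (Nat.succ_pos _)⟩
  refine ⟨m, by have := Finset.mem_range.1 hm; omega, ?_⟩
  -- two representations of the same number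
  have htwo : ∀ p q p' q' : ℕ, p ∈ A → q ∈ A → p' ∈ A → q' ∈ A → p + q = p' + q' →
      p + q ≤ 2 * x → (p, q) ≠ (p', q') → 2 ≤ rep A m := by
    intro p q p' q' hp hq hp' hq' hsum hle hne'
    refine le_trans ?_ (hmax (p + q) (Finset.mem_range.2 (by omega)))
    unfold rep
    have e : (({(p, q), (p', q')} : Finset (ℕ × ℕ)) : Set (ℕ × ℕ)).ncard = 2 := by
      rw [Set.ncard_coe_finset, Finset.card_pair hne']
    rw [← e]
    refine Set.ncard_le_ncard ?_ (rep_finite A _)
    intro z hz
    rw [Finset.coe_insert, Finset.coe_singleton, Set.mem_insert_iff, Set.mem_singleton_iff] at hz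
    rcases hz with rfl | rfl
    · exact ⟨hp, hq, rfl⟩
    · exact ⟨hp', hq', hsum.symm⟩
  have hinj : ∀ w w' : Fin n → Fin b × Fin b,
      (value fun i => (w i).1) = (value fun i => (w' i).1) →
      (value fun i => (w i).2) = (value fun i => (w' i).2) → w = w' := by
    intro w w' e1 e2
    have h3 := value_injective e1
    have h4 := value_injective e2
    funext i
    exact Prod.ext (congrFun h3 i) (congrFun h4 i)
  have hr2 : 2 ≤ rep A m := by
    obtain ⟨w, hw, w', hw', hne'⟩ := Finset.one_lt_card.1 (by omega : 1 < S.card)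
    obtain ⟨c1, c2, c3, c4⟩ := hA w ((hmem w).1 hw)
    obtain ⟨d1, d2, d3, d4⟩ := hA w' ((hmem w').1 hw')
    by_cases e2 : (value fun i => (w i).2) = (value fun i => (w' i).2)
    · have e1 : (value fun i => (w i).1) ≠ (value fun i => (w' i).1) := fun e1 =>
        hne' (hinj w w' e1 e2)
      refine htwo _ _ _ _ c4 d4 d4 c4 (add_comm _ _) (by omega) fun h => ?_
      have := (Prod.mk.inj h).1
      omega
    · refine htwo _ _ _ _ c3 d3 d3 c3 (add_comm _ _) (by omega) fun h => ?_
      exact e2 (Prod.mk.inj h).1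
  have hr2' : (2 : ℝ) ≤ rep A m := by exact_mod_cast hr2
  have hcardβ : Fintype.card (Fin b × Fin b) = b * b := by
    rw [Fintype.card_prod, Fintype.card_fin]
  have hb0 : (b : ℝ) ≠ 0 := by
    have : 0 < b := by omega
    exact_mod_cast this.ne'
  have hlogβ : Real.log (Fintype.card (Fin b × Fin b) : ℕ) = 2 * Real.log b := by
    rw [hcardβ]
    push_cast
    rw [Real.log_mul hb0 hb0]
    ring
  have hmain := mp_family (r := (rep A m : ℝ) ^ 2) (by
      rw [hcardβ]
      nlinarith) f hs S hmem h1 (by nlinarith) (fun F a c hFne hF => by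
    obtain ⟨p₀, hp₀⟩ := hFne
    set m1 := (value fun i => (a i).2) + (value fun i => (c i).2) with hm1
    set mm := (value fun i => (a i).1) + (value fun i => (c i).1) with hmm
    have hs1 : ∀ p ∈ F, (value fun i => (p.1 i).2) + (value fun i => (p.2 i).2) = m1 := by
      intro p hp
      refine value_swap fun i => ?_
      rcases (hF p hp).2.2 i with ⟨e1, e2⟩ | ⟨e1, e2⟩
      · left
        rw [e1, e2]
        exact ⟨rfl, rfl⟩
      · right
        rw [e1, e2]
        exact ⟨rfl, rfl⟩
    have hs2 : ∀ p ∈ F, (value fun i => (p.1 i).1) + (value fun i => (p.2 i).1) = mm := by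
      intro p hp
      refine value_swap fun i => ?_
      rcases (hF p hp).2.2 i with ⟨e1, e2⟩ | ⟨e1, e2⟩
      · left
        rw [e1, e2]
        exact ⟨rfl, rfl⟩
      · right
        rw [e1, e2]
        exact ⟨rfl, rfl⟩
    have hle1 : m1 ≤ 2 * x := by
      have e1 := hs1 p₀ hp₀
      obtain ⟨g1, g2, -⟩ := hF p₀ hp₀
      obtain ⟨c1, c2, -⟩ := hA _ g1
      obtain ⟨d1, d2, -⟩ := hA _ g2
      omega
    have hle2 : mm - m1 ≤ 2 * x := by
      have e1 := hs2 p₀ hp₀
      obtain ⟨g1, g2, -⟩ := hF p₀ hp₀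
      obtain ⟨c1, c2, -⟩ := hA _ g1
      obtain ⟨d1, d2, -⟩ := hA _ g2
      omega
    have hprod : F.card ≤ rep A m1 * rep A (mm - m1) := by
      unfold rep
      rw [← Set.ncard_prod]
      have e : F.card = ((F.image fun p => (((value fun i => (p.1 i).2),
          (value fun i => (p.2 i).2)), ((value fun i => (p.1 i).1) - (value fun i => (p.1 i).2),
          (value fun i => (p.2 i).1) - (value fun i => (p.2 i).2))) :
            Finset ((ℕ × ℕ) × (ℕ × ℕ))) : Set ((ℕ × ℕ) × (ℕ × ℕ))).ncard := by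
        rw [Set.ncard_coe_finset, Finset.card_image_of_injOn]
        intro p hp q hq hpq
        rw [mem_coe] at hp hq
        obtain ⟨c1, -⟩ := hA _ (hF p hp).1
        obtain ⟨c2, -⟩ := hA _ (hF p hp).2.1
        obtain ⟨d1, -⟩ := hA _ (hF q hq).1
        obtain ⟨d2, -⟩ := hA _ (hF q hq).2.1
        simp only [Prod.mk.injEq] at hpq
        obtain ⟨⟨e1, e2⟩, e3, e4⟩ := hpq
        exact Prod.ext (hinj _ _ (by omega) e1) (hinj _ _ (by omega) e2)
      rw [e]
      refine Set.ncard_le_ncard ?_ ((rep_finite A m1).prod (rep_finite A (mm - m1)))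
      intro z hz
      rw [Finset.mem_coe, Finset.mem_image] at hz
      obtain ⟨p, hp, rfl⟩ := hz
      have e1 := hs1 p hp
      have e2 := hs2 p hp
      obtain ⟨g1, g2, -⟩ := hF p hp
      obtain ⟨c1, c2, c3, c4⟩ := hA _ g1
      obtain ⟨d1, d2, d3, d4⟩ := hA _ g2
      refine ⟨⟨c3, d3, e1⟩, ⟨c4, d4, ?_⟩⟩
      simp only
      omega
    have h5 := hmax m1 (Finset.mem_range.2 (by omega))
    have h6 := hmax (mm - m1) (Finset.mem_range.2 (by omega))
    have h7 : F.card ≤ rep A m * rep A m := hprod.trans (Nat.mul_le_mul h5 h6)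
    rw [pow_two]
    exact_mod_cast h7)
  rw [hlogβ, Real.log_pow] at hmain
  calc Real.log S.card ^ 2 ≤ _ := hmain
    _ = 280 * (s + 2 * Real.log b) * (n * Real.log b) * Real.log (rep A m) := by
      push_cast
      ring

end Pool.Agent.Helper1.MP
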