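import Mathlib
import Pool.Agent.Helper84.MP.Defs

/-!
Functions of the digits given by products of `s × s` matrices have rank at most `s` at all initial
segments of the positions.
-/

namespace Pool.Agent.Helper1.MP

open Finset Matrix
open Pool.Agent.Helper84.MP

variable {K β : Type*} [Field K] [Fintype β] [DecidableEq β]

/-- the product of the matrices `M i (w i)`, `i < n`, in this order -/
def mpr {s : ℕ} (M : ℕ → β → Matrix (Fin s) (Fin s) K) : (n : ℕ) → (Fin n → β) →
    Matrix (Fin s) (Fin s) K
  | 0, _ => 1
  | n + 1, w => mpr M n (fun i => w i.castSucc) * M n (w (Fin.last n))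

theorem mpr_zero {s : ℕ} (M : ℕ → β → Matrix (Fin s) (Fin s) K) (w : Fin 0 → β) :
    mpr M 0 w = 1 := rfl

theorem mpr_succ {s : ℕ} (M : ℕ → β → Matrix (Fin s) (Fin s) K) (n : ℕ)
    (w : Fin (n + 1) → β) :
    mpr M (n + 1) w = mpr M n (fun i => w i.castSucc) * M n (w (Fin.last n)) := rfl

theorem mpr_congr {s : ℕ} (M : ℕ → β → Matrix (Fin s) (Fin s) K) (p : ℕ → Prop)
    (h1 : ∀ i, ¬ p i → ∀ c, M i c = 1) (n : ℕ) (w w' : Fin n → β)
    (h : ∀ i : Fin n, p i → w i = w' i) : mpr M n w = mpr M n w' := by
  induction n with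
  | zero => rfl
  | succ n ih =>
    rw [mpr_succ, mpr_succ, ih (fun i => w i.castSucc) (fun i => w' i.castSucc)
      (fun i hi => h i.castSucc (by simpa using hi))]
    by_cases hp : p n
    · rw [h (Fin.last n) (by simpa using hp)]
    · rw [h1 n hp, h1 n hp]

theorem mpr_one {s : ℕ} (M : ℕ → β → Matrix (Fin s) (Fin s) K) (n : ℕ)
    (h1 : ∀ i < n, ∀ c, M i c = 1) (w : Fin n → β) : mpr M n w = 1 := by
  induction n with
  | zero => rfl
  | succ n ih =>
    rw [mpr_succ, ih (fun i hi => h1 i (by omega)), h1 n (by omega), one_mul]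

theorem mpr_split {s : ℕ} (M : ℕ → β → Matrix (Fin s) (Fin s) K) (k n : ℕ)
    (w : Fin n → β) :
    mpr M n w = mpr (fun i c => if i < k then M i c else 1) n w *
      mpr (fun i c => if i < k then 1 else M i c) n w := by
  induction n with
  | zero => simp [mpr_zero]
  | succ n ih =>
    by_cases hk : n < k
    · rw [mpr_succ, mpr_succ, ih]
      rw [mpr_one (fun i c => if i < k then 1 else M i c) n
        (fun i hi c => by simp only [if_pos (show i < k by omega)])]
      rw [mpr_one (fun i c => if i < k then 1 else M i c) (n + 1)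
        (fun i hi c => by simp only [if_pos (show i < k by omega)])]
      simp only [if_pos hk, mul_one]
    · rw [mpr_succ, mpr_succ, mpr_succ, ih]
      simp only [if_neg hk, mul_one, Matrix.mul_assoc]

/-- Piece R -/
theorem crk_mpr {s n : ℕ} (M : ℕ → β → Matrix (Fin s) (Fin s) K) (u v : Fin s → K)
    (k : ℕ) : crk (fun w : Fin n → β => u ⬝ᵥ (mpr M n w).mulVec v)
      (univ.filter fun i : Fin n => (i : ℕ) < k) ≤ s := by
  set D : Finset (Fin n) := univ.filter fun i : Fin n => (i : ℕ) < k with hD
  set P := mpr (fun i c => if i < k then M i c else 1) n with hP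
  set Q := mpr (fun i c => if i < k then 1 else M i c) n with hQ
  let g : Fin s → ((Fin n → β) → K) := fun a x => (Matrix.vecMul u (P x)) a
  have hle : Submodule.span K (Set.range (col (fun w : Fin n → β =>
      u ⬝ᵥ (mpr M n w).mulVec v) D)) ≤ Submodule.span K (Set.range g) := by
    rw [Submodule.span_le]
    rintro _ ⟨w, rfl⟩
    have hcol : col (fun w : Fin n → β => u ⬝ᵥ (mpr M n w).mulVec v) D w =
        ∑ a, (Q w).mulVec v a • g a := by
      funext x
      simp only [Helper84.MP.col, Finset.sum_apply, Pi.smul_apply, smul_eq_mul, g]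
      have h1 : P (D.piecewise x w) = P x := by
        refine mpr_congr _ (fun i => i < k) (fun i hi c => if_neg hi) n _ _ fun i hi => ?_
        rw [Finset.piecewise_eq_of_mem]
        simp only [hD, Finset.mem_filter, Finset.mem_univ, true_and]
        exact hi
      have h2 : Q (D.piecewise x w) = Q w := by
        refine mpr_congr _ (fun i => ¬ i < k) (fun i hi c => ?_) n _ _ fun i hi => ?_
        · exact if_pos (not_not.1 hi)
        · rw [Finset.piecewise_eq_of_notMem]
          simp only [hD, Finset.mem_filter, Finset.mem_univ, true_and]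
          exact hi
      rw [mpr_split M k n, ← hP, ← hQ, h1, h2, ← Matrix.mulVec_mulVec, Matrix.dotProduct_mulVec]
      simp only [dotProduct]
      exact Finset.sum_congr rfl fun a _ => mul_comm _ _
    rw [hcol]
    exact Submodule.sum_mem _ fun a _ => Submodule.smul_mem _ _ (Submodule.subset_span ⟨a, rfl⟩)
  haveI : Module.Finite K (Submodule.span K (Set.range g)) :=
    FiniteDimensional.span_of_finite K (Set.finite_range g)
  calc crk (fun w : Fin n → β => u ⬝ᵥ (mpr M n w).mulVec v) D
      ≤ Module.finrank K (Submodule.span K (Set.range g)) := Submodule.finrank_mono hle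
    _ ≤ Fintype.card (Fin s) := finrank_range_le_card g
    _ = s := Fintype.card_fin s


theorem ofFn_prod {s : ℕ} (M : β → Matrix (Fin s) (Fin s) K) (n : ℕ) (w : Fin n → β) :
    (List.ofFn fun i => M (w i)).prod = mpr (fun _ => M) n w := by
  induction n with
  | zero => simp [mpr_zero]
  | succ n ih => rw [List.ofFn_succ', List.concat_eq_append, List.prod_append,
      List.prod_singleton, mpr_succ, ih (fun i => w i.castSucc)]

end Pool.Agent.Helper1.MP
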