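import Pool.Agent.Helper1.MP.Choice
import Pool.Agent.Helper1.MP.Prod
import Pool.Agent.Helper12.MP.Reg

/-!
# Regular choices of representations
-/

namespace Pool.Agent.Helper1.MP

open Finset Matrix Pool.Agent.Helper84.MP
open Pool.Agent.Helper84.TN (value value_injective size)
open Pool.Agent.Helper82.CF (rep)
open Pool.Agent.Helper12.MP (exists_word value_lt rep_le)

/-- `f` is a `b`-regular function of two variables, of rank `s` (Allouche and Shallit): `f c a` is a
product of matrices, one for each pair of digits of `c` and `a` in base `b`, between two vectors -/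
def IsRegular2 {K : Type*} [Field K] (b s : ℕ) (f : ℕ → ℕ → K) : Prop :=
  ∃ (M : Fin b → Fin b → Matrix (Fin s) (Fin s) K) (u v : Fin s → K),
    ∀ (n : ℕ) (w w' : Fin n → Fin b), f (value w) (value w') =
      u ⬝ᵥ (List.ofFn fun i => M (w i) (w' i)).prod.mulVec v

/-- **Regular choices.** -/
theorem regular_choice {K : Type*} [Field K] {A : Set ℕ} {b s : ℕ} (hb : 2 ≤ b) (f : ℕ → ℕ → K)
    (hf : IsRegular2 b s f) (hA : ∀ c a, f c a ≠ 0 → a ≤ c ∧ a ∈ A ∧ c - a ∈ A)
    {δ : ℝ} (hδ : 0 < δ)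
    (hbig : ∀ X : ℕ, ∃ x ≥ X, (x : ℝ) ^ δ ≤
      ({p | p.1 < x ∧ f p.1 p.2 ≠ 0} : Set (ℕ × ℕ)).ncard) :
    ∀ X : ℕ, ∃ m ≥ X, (m : ℝ) ^ (δ ^ 2 / (1680 * (s + 2 * Real.log b))) ≤ rep A m := by
  classical
  have hb1 : (1 : ℝ) < b := by
    have : 1 < b := by omega
    exact_mod_cast this
  have hb0 : (0 : ℝ) < b := by linarith
  have hlb : 0 < Real.log b := Real.log_pos hb1
  have hs0 : (0 : ℝ) ≤ s := Nat.cast_nonneg s
  set c₀ : ℝ := δ ^ 2 / (560 * (s + 2 * Real.log b)) with hc₀
  have hc₀pos : 0 < c₀ := by positivity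
  have hexp : δ ^ 2 / (1680 * (s + 2 * Real.log b)) = c₀ / 3 := by
    rw [hc₀, div_div]
    congr 1
    ring
  rw [hexp]
  intro X
  obtain ⟨x, hx, hxN⟩ := hbig (⌈((X : ℝ) + 1) ^ (1 / c₀)⌉₊ + 2 * b)
  have hx2b : 2 * b ≤ x := by omega
  have hx1 : 1 < x := by omega
  have hxR : (1 : ℝ) < x := by exact_mod_cast hx1
  have hx0 : (0 : ℝ) < x := by linarith
  have hlx : 0 < Real.log x := Real.log_pos hxR
  set n : ℕ := Nat.clog b x with hn
  have hn1 : x ≤ b ^ n := Nat.le_pow_clog (by omega) x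
  have hnpos : n ≠ 0 := (Nat.clog_pos (by omega) (by omega)).ne'
  have hn2 : b ^ (n - 1) < x := Nat.pow_pred_clog_lt_self (by omega) (by omega)
  have hn3 : b ^ n ≤ b * x := by
    have h1 : b ^ n = b * b ^ (n - 1) := by
      rw [← pow_succ']
      congr 1
      omega
    rw [h1]
    exact Nat.mul_le_mul_left _ hn2.le
  -- the function on words
  obtain ⟨M, u, v, hM⟩ := hf
  set F : (Fin n → Fin b × Fin b) → K :=
    fun w => f (value fun i => (w i).1) (value fun i => (w i).2) with hF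
  have hFM : F = fun w => u ⬝ᵥ
      (mpr (fun _ (c : Fin b × Fin b) => M c.1 c.2) n w).mulVec v := by
    funext w
    rw [hF, ← ofFn_prod (fun c : Fin b × Fin b => M c.1 c.2) n w]
    exact hM n (fun i => (w i).1) fun i => (w i).2
  have hcount : ({p | p.1 < x ∧ f p.1 p.2 ≠ 0} : Set (ℕ × ℕ)).ncard ≤ size F := by
    have h1 : ({p | p.1 < x ∧ f p.1 p.2 ≠ 0} : Set (ℕ × ℕ)) ⊆
        (((Finset.univ.filter fun w : Fin n → Fin b × Fin b => F w ≠ 0).image
          fun w => ((value fun i => (w i).1), (value fun i => (w i).2)) :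
            Finset (ℕ × ℕ)) : Set (ℕ × ℕ)) := by
      rintro ⟨c, a⟩ ⟨hc, hc'⟩
      simp only at hc hc'
      obtain ⟨hac, -⟩ := hA c a hc'
      obtain ⟨w, rfl⟩ := exists_word (b := b) (n := n) (hc.trans_le hn1)
      obtain ⟨w', rfl⟩ := exists_word (b := b) (n := n) (hac.trans_lt (hc.trans_le hn1))
      rw [Finset.mem_coe, Finset.mem_image]
      exact ⟨fun i => (w i, w' i), Finset.mem_filter.2 ⟨Finset.mem_univ _, hc'⟩, rfl⟩
    have h2 := Set.ncard_le_ncard h1
    rw [Set.ncard_coe_finset] at h2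
    refine h2.trans (Finset.card_image_le.trans (le_of_eq ?_))
    unfold size
    congr 1
    ext w
    simp
  have hsize : (x : ℝ) ^ δ ≤ size F := hxN.trans (by exact_mod_cast hcount)
  have hxδ : 1 < (x : ℝ) ^ δ := Real.one_lt_rpow hxR hδ
  have hne : ∃ w, F w ≠ 0 := by
    by_contra hcon
    push Not at hcon
    have h1 : size F = 0 := by
      unfold size
      rw [Finset.card_eq_zero, Finset.filter_eq_empty_iff]
      intro w _
      exact fun h => h (hcon w)
    rw [h1] at hsize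
    push_cast at hsize
    linarith
  obtain ⟨m, hm, hlog⟩ := mp_choice (A := A) (n := n) (s := s) (x := b ^ n - 1) hb F (by
    intro k
    rw [hFM]
    exact crk_mpr _ u v k) hne (by
    intro w hw
    have h1 := value_lt fun i => (w i).1
    obtain ⟨g1, g2, g3⟩ := hA _ _ hw
    exact ⟨g1, by omega, g2, g3⟩)
  -- logarithms
  have hl1 : δ * Real.log x ≤ Real.log (size F) := by
    have h1 := Real.log_le_log (by linarith) hsize
    rwa [Real.log_rpow hx0] at h1
  have hl2 : (n : ℝ) * Real.log b ≤ 2 * Real.log x := by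
    have h1 : (b : ℝ) ^ n ≤ b * x := by exact_mod_cast hn3
    have h2 := Real.log_le_log (by positivity) h1
    rw [Real.log_pow, Real.log_mul hb0.ne' hx0.ne'] at h2
    have h3 : Real.log b ≤ Real.log x := by
      refine Real.log_le_log hb0 ?_
      have : b ≤ x := by omega
      exact_mod_cast this
    linarith
  have hl3 : c₀ * Real.log x ≤ Real.log (rep A m) := by
    by_cases hr : Real.log (rep A m) ≤ 0
    · exfalso
      have h1 : 280 * ((s : ℝ) + 2 * Real.log b) * (n * Real.log b) * Real.log (rep A m) ≤ 0 :=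
        mul_nonpos_of_nonneg_of_nonpos (by positivity) hr
      have h2 : 0 < Real.log (size F) := lt_of_lt_of_le (by positivity) hl1
      have h3 : 0 < Real.log (size F) ^ 2 := by positivity
      linarith
    · have hr' := lt_of_not_ge hr
      have h1 : (δ * Real.log x) ^ 2 ≤ Real.log (size F) ^ 2 :=
        pow_le_pow_left₀ (by positivity) hl1 2
      have h2 : 280 * ((s : ℝ) + 2 * Real.log b) * (n * Real.log b) * Real.log (rep A m) ≤
          280 * ((s : ℝ) + 2 * Real.log b) * (2 * Real.log x) * Real.log (rep A m) := by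
        refine mul_le_mul_of_nonneg_right ?_ hr'.le
        exact mul_le_mul_of_nonneg_left hl2 (by positivity)
      have h3 : δ ^ 2 * Real.log x * Real.log x ≤
          (560 * ((s : ℝ) + 2 * Real.log b) * Real.log (rep A m)) * Real.log x := by
        have e1 : (δ * Real.log x) ^ 2 = δ ^ 2 * Real.log x * Real.log x := by ring
        have e2 : 280 * ((s : ℝ) + 2 * Real.log b) * (2 * Real.log x) * Real.log (rep A m) =
            (560 * ((s : ℝ) + 2 * Real.log b) * Real.log (rep A m)) * Real.log x := by ring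
        linarith
      have h4 := le_of_mul_le_mul_right h3 hlx
      rw [hc₀, div_mul_eq_mul_div, div_le_iff₀ (by positivity)]
      linarith
  have hrep : (x : ℝ) ^ c₀ ≤ rep A m := by
    have hr : (0 : ℝ) < rep A m := by
      by_contra hcon
      have h1 : (rep A m : ℝ) = 0 := le_antisymm (not_lt.mp hcon) (Nat.cast_nonneg _)
      rw [h1, Real.log_zero] at hl3
      have : 0 < c₀ * Real.log x := by positivity
      linarith
    rw [Real.rpow_def_of_pos hx0, ← Real.exp_log hr]
    exact Real.exp_le_exp.2 (by linarith)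
  refine ⟨m, ?_, ?_⟩
  · have h1 : ((X : ℝ) + 1) ^ (1 / c₀) ≤ x := by
      have h2 := Nat.le_ceil (((X : ℝ) + 1) ^ (1 / c₀))
      have h3 : (⌈((X : ℝ) + 1) ^ (1 / c₀)⌉₊ : ℝ) ≤ x := by
        have : ⌈((X : ℝ) + 1) ^ (1 / c₀)⌉₊ ≤ x := by omega
        exact_mod_cast this
      linarith
    have h2 : (X : ℝ) + 1 ≤ (x : ℝ) ^ c₀ := by
      have h3 := Real.rpow_le_rpow (by positivity) h1 hc₀pos.le
      rwa [← Real.rpow_mul (by positivity), one_div_mul_cancel hc₀pos.ne', Real.rpow_one] at h3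
    have h3 : ((rep A m : ℕ) : ℝ) ≤ ((m + 1 : ℕ) : ℝ) := by exact_mod_cast rep_le A m
    push_cast at h3
    have h4 : (X : ℝ) ≤ m := by linarith
    exact_mod_cast h4
  · refine le_trans ?_ hrep
    have h1 : (m : ℝ) ≤ (x : ℝ) ^ (3 : ℝ) := by
      have h2 : m ≤ x ^ 3 := by
        calc m ≤ 2 * (b ^ n - 1) := hm
          _ ≤ 2 * b ^ n := Nat.mul_le_mul_left _ (Nat.sub_le _ _)
          _ ≤ 2 * (b * x) := Nat.mul_le_mul_left _ hn3
          _ = (2 * b) * x := by ring
          _ ≤ x * x := Nat.mul_le_mul_right _ hx2b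
          _ = x ^ 2 * 1 := by ring
          _ ≤ x ^ 2 * x := Nat.mul_le_mul_left _ hx1.le
          _ = x ^ 3 := by ring
      have h3 : (m : ℝ) ≤ (x : ℝ) ^ 3 := by exact_mod_cast h2
      rwa [← Real.rpow_natCast, Nat.cast_ofNat] at h3
    have h2 := Real.rpow_le_rpow (Nat.cast_nonneg m) h1 (show 0 ≤ c₀ / 3 by positivity)
    rwa [← Real.rpow_mul hx0.le, show (3 : ℝ) * (c₀ / 3) = c₀ by ring] at h2

end Pool.Agent.Helper1.MP
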