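import Mathlib
import Pool.Agent.Helper84.MP.V6

/-!
MP_12a1af_nt (Erdős–Turán): regular sequences on sets with small representation function.
-/

namespace Pool.Agent.Helper1.MP.Crisp

open Matrix
open Pool.Agent.Helper84.TN (value)
open Pool.Agent.Helper82.CF (rep)

/-- `f` is a `b`-regular sequence (Allouche and Shallit): `f c` is the product of square matrices
`M d`, one for each base `b` digit `d` of `c`, the lowest digit first, between two vectors; `c` may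
be written with additional zeros. -/
def IsRegular {K : Type} [Field K] (b : ℕ) (f : ℕ → K) : Prop :=
  ∃ (s : ℕ) (M : Fin b → Matrix (Fin s) (Fin s) K) (u v : Fin s → K),
    ∀ (n : ℕ) (w : Fin n → Fin b),
      f (value w) = u ⬝ᵥ (List.ofFn fun i => M (w i)).prod.mulVec v

/-- the same for functions of two variables, with a matrix for each pair of digits -/
def IsRegular2 {K : Type} [Field K] (b : ℕ) (f : ℕ → ℕ → K) : Prop :=
  ∃ (s : ℕ) (M : Fin b → Fin b → Matrix (Fin s) (Fin s) K) (u v : Fin s → K),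
    ∀ (n : ℕ) (w w' : Fin n → Fin b), f (value w) (value w') =
      u ⬝ᵥ (List.ofFn fun i => M (w i) (w' i)).prod.mulVec v

theorem ncard_le_pairs {K : Type} [Field K] {A : Set ℕ} {f : ℕ → ℕ → K}
    (hA : ∀ n a, f n a ≠ 0 → a ≤ n ∧ a ∈ A ∧ n - a ∈ A) (x : ℕ) :
    {n | n < x ∧ ∃ a, f n a ≠ 0}.ncard ≤ {p : ℕ × ℕ | p.1 < x ∧ f p.1 p.2 ≠ 0}.ncard := by
  have h1 : {n | n < x ∧ ∃ a, f n a ≠ 0} =
      Prod.fst '' {p : ℕ × ℕ | p.1 < x ∧ f p.1 p.2 ≠ 0} := by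
    ext n
    constructor
    · rintro ⟨h1, a, h2⟩
      exact ⟨(n, a), ⟨h1, h2⟩, rfl⟩
    · rintro ⟨⟨n', a⟩, ⟨h1, h2⟩, rfl⟩
      exact ⟨h1, a, h2⟩
  rw [h1]
  refine Set.ncard_image_le ?_
  refine ((Finset.range x ×ˢ Finset.range x).finite_toSet).subset ?_
  rintro ⟨n, a⟩ ⟨h2, h3⟩
  obtain ⟨h4, -⟩ := hA n a h3
  simp only at h2
  rw [Finset.mem_coe, Finset.mem_product, Finset.mem_range, Finset.mem_range]
  exact ⟨h2, by simp only; omega⟩

/-- `rep A m` is the number of ordered pairs `(a, a') ∈ A × A` with `a + a' = m`; `value w` is the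
number with the base `b` digits `w 0, w 1, ...`.

(1) Let `f` be a `b`-regular sequence with values in a field, zero outside `A`. If for some `d > 0`
and arbitrarily large `x` at least `x ^ d` of the numbers below `x` have `f c ≠ 0`, then for some
`e > 0` there are arbitrarily large `m` with `r_A(m) ≥ m ^ e`. If `r_A(m) < 2 ^ (k + 1)` for all
`m`, at most `C (log x) ^ k` of the numbers below `x` have `f c ≠ 0`.
(2) The exponent `k` is best possible for all `k ≥ 1`.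
(3) Let `f (c, a)` be a `b`-regular function of two variables which is not zero only at
representations: `a` and `c - a` in `A`. If for some `d > 0` and arbitrarily large `x` at least
`x ^ d` of the `c` below `x` have an `a` with `f (c, a) ≠ 0`, then for some `e > 0` there are
arbitrarily large `m` with `r_A(m) ≥ m ^ e`. -/
theorem result :
    (∀ (K : Type) [Field K] (A : Set ℕ) (b : ℕ) (f : ℕ → K), 2 ≤ b → IsRegular b f →
      (∀ c, f c ≠ 0 → c ∈ A) →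
      (∀ d : ℝ, 0 < d → (∀ X : ℕ, ∃ x ≥ X, (x : ℝ) ^ d ≤ {c | c < x ∧ f c ≠ 0}.ncard) →
        ∃ e : ℝ, 0 < e ∧ ∀ X : ℕ, ∃ m ≥ X, (m : ℝ) ^ e ≤ rep A m) ∧
      ∀ k : ℕ, (∀ m, rep A m < 2 ^ (k + 1)) →
        ∃ C : ℝ, ∀ x : ℕ, 2 ≤ x → ({c | c < x ∧ f c ≠ 0}.ncard : ℝ) ≤ C * Real.log x ^ k) ∧
    (∀ k : ℕ, 1 ≤ k → ∃ f : ℕ → ℚ, IsRegular 3 f ∧ (∀ m, rep {c | f c ≠ 0} m ≤ 2 ^ k) ∧
      ∃ c : ℝ, 0 < c ∧ ∀ x : ℕ, 3 ^ k ≤ x → c * Real.log x ^ k ≤ {c | c < x ∧ f c ≠ 0}.ncard) ∧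
    ∀ (K : Type) [Field K] (A : Set ℕ) (b : ℕ) (f : ℕ → ℕ → K), 2 ≤ b → IsRegular2 b f →
      (∀ c a, f c a ≠ 0 → a ∈ A ∧ ∃ a' ∈ A, a + a' = c) →
      ∀ d : ℝ, 0 < d →
        (∀ X : ℕ, ∃ x ≥ X, (x : ℝ) ^ d ≤ {c | c < x ∧ ∃ a, f c a ≠ 0}.ncard) →
        ∃ e : ℝ, 0 < e ∧ ∀ X : ℕ, ∃ m ≥ X, (m : ℝ) ^ e ≤ rep A m := by
  have hlb : ∀ b : ℕ, 2 ≤ b → 0 < Real.log b := fun b hb => Real.log_pos (by
    have : 1 < b := by omega
    exact_mod_cast this)
  refine ⟨?_, ?_, ?_⟩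
  · rintro K _ A b f hb ⟨s, M, u, v, hf⟩ hA
    have hf' : Helper84.MP.V6.IsRegular b s f := ⟨M, u, v, hf⟩
    refine ⟨fun d hd hbig => ?_, fun k hr => ?_⟩
    · have := hlb b hb
      exact ⟨_, by positivity, Helper12.MP.regular_explicit hb f (Helper84.MP.V6.toMprod hf') hA
        hd hbig⟩
    · obtain ⟨C, -, hC⟩ := Helper29.MP.regular_bdd hb f (Helper84.MP.V6.toMprod hf') hA hr
      exact ⟨C, hC⟩
  · intro k hk
    obtain ⟨f, h1, h2, h3⟩ := Helper29.MP.regular_sharp3 ℚ k hk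
    obtain ⟨M, u, v, hf⟩ := Helper84.MP.V6.ofMprod h1
    have hk0 : (0 : ℝ) < k := by exact_mod_cast hk
    have hp : (0 : ℝ) < (4 * k) ^ k := by positivity
    refine ⟨f, ⟨_, M, u, v, hf⟩, h2, 1 / (4 * k) ^ k, by positivity, fun x hx => ?_⟩
    have h4 := h3 x hx
    rw [one_div, inv_mul_le_iff₀ hp]
    exact h4
  · rintro K _ A b f hb ⟨s, M, u, v, hf⟩ hA d hd hbig
    have hf' : Helper1.MP.IsRegular2 b s f := ⟨M, u, v, hf⟩
    have hA' : ∀ c a, f c a ≠ 0 → a ≤ c ∧ a ∈ A ∧ c - a ∈ A := by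
      intro c a h
      obtain ⟨h1, a', h2, h3⟩ := hA c a h
      have e : c - a = a' := by omega
      rw [e]
      exact ⟨by omega, h1, h2⟩
    have := hlb b hb
    refine ⟨_, by positivity, Helper1.MP.regular_choice hb f hf' hA' hd fun X => ?_⟩
    obtain ⟨x, hx, h⟩ := hbig X
    exact ⟨x, hx, h.trans (by exact_mod_cast ncard_le_pairs hA' x)⟩

end Pool.Agent.Helper1.MP.Crisp
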