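import Pool.Agent.Helper1.MP.Bdd2
import Pool.Agent.Helper84.MP.Bridge
import Pool.Agent.Helper79.MP.Rate

/-!
# Choices of representations of small cut rank
-/

namespace Pool.Agent.Helper1.MP

open Finset
open Pool.Agent.Helper84.MP
open Pool.Agent.Helper84.TN (value value_injective rk SuppRank card_le_of_suppRank cube_of_box bd)
open Pool.Agent.Helper82.CF (rep rep_finite cube)
open Pool.Agent.Helper12.MP (exists_word value_lt)

/-- For each cut of the digits of both numbers some matrix over some field with rank at most `s` is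
not zero exactly at the pairs of `S`. -/
def CutRank2 (b n : ℕ) (S : Finset (ℕ × ℕ)) (s : ℕ) : Prop :=
  ∀ i ≤ n, ∃ (F : Type) (_ : Field F)
    (M : Matrix (Fin (b ^ i) × Fin (b ^ i)) (Fin (b ^ (n - i)) × Fin (b ^ (n - i))) F),
    M.rank ≤ s ∧ ∀ u v, M u v ≠ 0 ↔
      ((u.1 : ℕ) + b ^ i * v.1, (u.2 : ℕ) + b ^ i * v.2) ∈ S

section

variable {F : Type*} [Field F] {n b i : ℕ}

theorem crk_matrix2 (hb : 1 ≤ b) (hin : i ≤ n)
    (M : Matrix (Fin (b ^ i) × Fin (b ^ i)) (Fin (b ^ (n - i)) × Fin (b ^ (n - i))) F) :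
    crk (fun w : Fin n → Fin b × Fin b => M (lo hb i fun t => (w t).1, lo hb i fun t => (w t).2)
      (hi hb hin fun t => (w t).1, hi hb hin fun t => (w t).2)) (ini n i) ≤ M.rank := by
  rw [Matrix.rank_eq_finrank_span_cols]
  unfold crk
  set L : (Fin (b ^ i) × Fin (b ^ i) → F) →ₗ[F] ((Fin n → Fin b × Fin b) → F) :=
    LinearMap.funLeft F F (fun u => (lo hb i fun t => (u t).1, lo hb i fun t => (u t).2)) with hL
  have h1 : Submodule.span F (Set.range (col (fun w : Fin n → Fin b × Fin b =>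
      M (lo hb i fun t => (w t).1, lo hb i fun t => (w t).2)
      (hi hb hin fun t => (w t).1, hi hb hin fun t => (w t).2)) (ini n i))) ≤
      (Submodule.span F (Set.range M.col)).map L := by
    rw [Submodule.span_le]
    rintro _ ⟨w, rfl⟩
    refine ⟨M.col (hi hb hin fun t => (w t).1, hi hb hin fun t => (w t).2),
      Submodule.subset_span ⟨_, rfl⟩, ?_⟩
    funext u
    rw [hL]
    have p1 : (fun t => ((ini n i).piecewise u w t).1) =
        (ini n i).piecewise (fun t => (u t).1) fun t => (w t).1 := by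
      funext t
      by_cases ht : t ∈ ini n i
      · rw [Finset.piecewise_eq_of_mem _ _ _ ht, Finset.piecewise_eq_of_mem _ _ _ ht]
      · rw [Finset.piecewise_eq_of_notMem _ _ _ ht, Finset.piecewise_eq_of_notMem _ _ _ ht]
    have p2 : (fun t => ((ini n i).piecewise u w t).2) =
        (ini n i).piecewise (fun t => (u t).2) fun t => (w t).2 := by
      funext t
      by_cases ht : t ∈ ini n i
      · rw [Finset.piecewise_eq_of_mem _ _ _ ht, Finset.piecewise_eq_of_mem _ _ _ ht]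
      · rw [Finset.piecewise_eq_of_notMem _ _ _ ht, Finset.piecewise_eq_of_notMem _ _ _ ht]
    change M (lo hb i fun t => (u t).1, lo hb i fun t => (u t).2)
        (hi hb hin fun t => (w t).1, hi hb hin fun t => (w t).2) =
      M (lo hb i fun t => ((ini n i).piecewise u w t).1,
          lo hb i fun t => ((ini n i).piecewise u w t).2)
        (hi hb hin fun t => ((ini n i).piecewise u w t).1,
          hi hb hin fun t => ((ini n i).piecewise u w t).2)
    rw [p1, p2]
    have e1 : ∀ u w : Fin n → Fin b, lo hb i ((ini n i).piecewise u w) = lo hb i u :=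
      fun u w => Fin.ext (mod_piecewise hb i u w)
    have e2 : ∀ u w : Fin n → Fin b, hi hb hin ((ini n i).piecewise u w) = hi hb hin w :=
      fun u w => Fin.ext (div_piecewise hb i u w)
    rw [e1, e1, e2, e2]
  exact (Submodule.finrank_mono h1).trans (Submodule.finrank_map_le _ _)

end

theorem suppRank_of_cutRank2 {b n s : ℕ} (hb : 1 ≤ b) {S : Finset (ℕ × ℕ)}
    (h : CutRank2 b n S s) (k : ℕ) :
    SuppRank (Finset.univ.filter fun w : Fin n → Fin b × Fin b =>
      ((value fun t => (w t).1), (value fun t => (w t).2)) ∈ S) (ini n k) s := by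
  rw [ini_min]
  have hin : min k n ≤ n := min_le_right _ _
  obtain ⟨F, hF, M, hM, hS⟩ := h _ hin
  refine ⟨F, hF, fun w => M (lo hb (min k n) fun t => (w t).1, lo hb (min k n) fun t => (w t).2)
    (hi hb hin fun t => (w t).1, hi hb hin fun t => (w t).2), fun w => ?_, ?_⟩
  · rw [hS, mem_filter]
    change ((value fun t => (w t).1) % b ^ min k n +
        b ^ min k n * ((value fun t => (w t).1) / b ^ min k n),
      (value fun t => (w t).2) % b ^ min k n +
        b ^ min k n * ((value fun t => (w t).2) / b ^ min k n)) ∈ S ↔ _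
    rw [Nat.mod_add_div, Nat.mod_add_div]
    simp
  · rw [← crk_eq_rk]
    exact (crk_matrix2 hb hin M).trans hM

/-- **The bound for choices of small cut rank.** -/
theorem choice_card {A : Set ℕ} {b n k s : ℕ} (hb : 2 ≤ b) (hn : 1 ≤ n)
    (hr : ∀ m, rep A m < 2 ^ (k + 1))
    {S : Finset (ℕ × ℕ)} (hlt : ∀ p ∈ S, p.1 < b ^ n)
    (hA : ∀ p ∈ S, p.2 ≤ p.1 ∧ p.2 ∈ A ∧ p.1 - p.2 ∈ A) (hs : CutRank2 b n S s) :
    S.card ≤ (n * (b * b + 1)) ^ (2 * k + 1) * (max s (b * b)) ^ (3 * (2 ^ (2 * k + 1) - 1)) := by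
  classical
  set S' : Finset (Fin n → Fin b × Fin b) := Finset.univ.filter fun w =>
    ((value fun t => (w t).1), (value fun t => (w t).2)) ∈ S with hS'
  have hmem : ∀ w, w ∈ S' ↔ ((value fun t => (w t).1), (value fun t => (w t).2)) ∈ S := by
    intro w
    rw [hS', mem_filter]
    simp
  have hcard : S.card = S'.card := by
    symm
    refine Finset.card_bij (fun w _ => ((value fun t => (w t).1), (value fun t => (w t).2)))
      (fun w hw => (hmem w).1 hw) ?_ ?_
    · intro w _ w' _ h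
      have h1 := value_injective (Prod.mk.inj h).1
      have h2 := value_injective (Prod.mk.inj h).2
      funext t
      exact Prod.ext (congrFun h1 t) (congrFun h2 t)
    · rintro ⟨c, a⟩ hp
      have h1 := hlt _ hp
      have h2 := (hA _ hp).1
      simp only at h1 h2
      obtain ⟨w, rfl⟩ := exists_word (b := b) (n := n) h1
      obtain ⟨w', rfl⟩ := exists_word (b := b) (n := n) (h2.trans_lt h1)
      exact ⟨fun t => (w t, w' t), (hmem _).2 hp, rfl⟩
  rw [hcard]
  rcases S'.eq_empty_or_nonempty with he | ⟨z, hz⟩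
  · rw [he]
    simp
  obtain ⟨T, hT, hset, hblocks⟩ := Helper29.MP.exists_path n n hn le_rfl
  have huniv : T.set = univ := by
    rw [hset]
    exact Finset.filter_true_of_mem fun i _ => i.2
  have hsupp := suppRank_of_cutRank2 (n := n) (by omega : 1 ≤ b) hs
  have hm0 : 1 ≤ max s (b * b) := le_max_of_le_right (by nlinarith)
  have hcardβ : Fintype.card (Fin b × Fin b) = b * b := by
    rw [Fintype.card_prod, Fintype.card_fin]
  have hrk : ∀ D ∈ T.blocks, SuppRank S' D (max s (b * b)) := by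
    intro D hD
    rcases hblocks D hD with ⟨j, rfl⟩ | ⟨i, rfl⟩
    · obtain ⟨F, hF, f, hf, h⟩ := hsupp j
      exact ⟨F, hF, f, hf, h.trans (le_max_left _ _)⟩
    · obtain ⟨F, hF, f, hf, -⟩ := hsupp 0
      refine ⟨F, hF, f, hf, (rk_single f i).trans ?_⟩
      rw [hcardβ]
      exact le_max_right _ _
  have h1 := card_le_of_suppRank z T hT huniv (2 * k + 1) (max s (b * b)) S' hm0 hrk (by
    intro hbox
    set e : Fin n → Fin b × Fin b → ℤ × ℤ := fun i d =>
      ((((d.1 : ℕ) * b ^ (i : ℕ) : ℕ) : ℤ), (((d.2 : ℕ) * b ^ (i : ℕ) : ℕ) : ℤ)) with he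
    have hval : ∀ w : Fin n → Fin b × Fin b, ∑ i, e i (w i) =
        (((value fun i => (w i).1 : ℕ) : ℤ), ((value fun i => (w i).2 : ℕ) : ℤ)) := by
      intro w
      refine Prod.ext ?_ ?_
      · rw [Prod.fst_sum]
        simp only [value, Nat.cast_sum, he]
      · rw [Prod.snd_sum]
        simp only [value, Nat.cast_sum, he]
    have hinj : Function.Injective fun w : Fin n → Fin b × Fin b => ∑ i, e i (w i) := by
      intro w w' h
      simp only [hval, Prod.mk.injEq] at h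
      obtain ⟨h1, h2⟩ := h
      have h3 := value_injective (Nat.cast_injective h1)
      have h4 := value_injective (Nat.cast_injective h2)
      funext i
      exact Prod.ext (congrFun h3 i) (congrFun h4 i)
    obtain ⟨g, l, hl, hc, hsub⟩ := cube_of_box e hinj z _ _ hbox
    refine no_cube2 hr (S := S'.image fun w => ∑ i, e i (w i)) ?_ g l hl (by rw [hc, hl]) ?_
    · intro y hy
      obtain ⟨w, hw, rfl⟩ := Finset.mem_image.1 hy
      have h2 := hA _ ((hmem w).1 hw)
      exact ⟨_, _, hval w, h2.1, h2.2.1, h2.2.2⟩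
    · intro y hy
      obtain ⟨w, hw, rfl⟩ := hsub y hy
      exact Finset.mem_image.2 ⟨w, hw, rfl⟩)
  rw [bd, Fintype.card_fin, hcardβ] at h1
  exact h1

/-- the asymptotic form -/
theorem asym {b : ℕ} (hb : 2 ≤ b) {d : ℝ} (hd : 0 < d) (B K E β : ℕ) (hE : 1 ≤ E) :
    ∃ n₀ : ℕ, ∀ n ≥ n₀, ∀ s : ℕ, (b : ℝ) ^ (d * n) ≤ (((n * B) ^ K * (max s β) ^ E : ℕ) : ℝ) →
      (b : ℝ) ^ (d / (2 * E) * n) ≤ s := by
  have hb1 : (1 : ℝ) < b := by
    have : 1 < b := by omega
    exact_mod_cast this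
  have hb0 : (0 : ℝ) < b := by linarith
  have hE0 : (0 : ℝ) < E := by
    have : 0 < E := hE
    exact_mod_cast this
  set r : ℝ := (b : ℝ) ^ (d / 2) with hr
  have hr1 : 1 < r := Real.one_lt_rpow hb1 (by linarith)
  set q : ℝ := (b : ℝ) ^ (d / (2 * E)) with hq
  have hq1 : 1 < q := Real.one_lt_rpow hb1 (by positivity)
  have h1 := tendsto_pow_const_div_const_pow_of_one_lt K hr1
  have hB0 : (0 : ℝ) < 1 / ((B : ℝ) + 1) ^ K := by positivity
  have h2 := (h1.eventually (gt_mem_nhds hB0)).and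
    ((tendsto_pow_atTop_atTop_of_one_lt hq1).eventually_gt_atTop (β : ℝ))
  obtain ⟨n₀, hn₀⟩ := Filter.eventually_atTop.1 h2
  refine ⟨n₀, fun n hn s hs => ?_⟩
  obtain ⟨h3, h4⟩ := hn₀ n hn
  have er : (b : ℝ) ^ (d * n) = r ^ n * r ^ n := by
    rw [hr, ← Real.rpow_natCast, ← Real.rpow_mul hb0.le, ← Real.rpow_add hb0]
    congr 1
    ring
  have eq1 : (b : ℝ) ^ (d / (2 * E) * n) = q ^ n := by
    rw [hq, ← Real.rpow_natCast, ← Real.rpow_mul hb0.le]
  have eq2 : (q ^ n) ^ E = r ^ n := by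
    rw [hq, hr, ← Real.rpow_natCast, ← Real.rpow_natCast, ← Real.rpow_natCast,
      ← Real.rpow_mul hb0.le, ← Real.rpow_mul hb0.le, ← Real.rpow_mul hb0.le]
    congr 1
    field_simp
  have hrn : 0 < r ^ n := by positivity
  have h5 : ((n : ℝ) * B) ^ K ≤ r ^ n := by
    have h6 : (n : ℝ) ^ K < 1 / ((B : ℝ) + 1) ^ K * r ^ n := by
      rwa [div_lt_iff₀ hrn] at h3
    calc ((n : ℝ) * B) ^ K ≤ (n * (B + 1)) ^ K := by
          refine pow_le_pow_left₀ (by positivity) ?_ K
          exact mul_le_mul_of_nonneg_left (by linarith) (Nat.cast_nonneg n)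
      _ = n ^ K * (B + 1) ^ K := mul_pow _ _ _
      _ ≤ (1 / ((B : ℝ) + 1) ^ K * r ^ n) * (B + 1) ^ K :=
          mul_le_mul_of_nonneg_right h6.le (by positivity)
      _ = r ^ n := by field_simp
  set m : ℕ := max s β with hm
  have h7 : r ^ n * r ^ n ≤ r ^ n * (m : ℝ) ^ E := by
    rw [← er]
    refine hs.trans ?_
    push_cast
    exact mul_le_mul_of_nonneg_right h5 (by positivity)
  have h8 : (q ^ n) ^ E ≤ (m : ℝ) ^ E := by
    rw [eq2]
    exact le_of_mul_le_mul_left h7 hrn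
  have h9 : q ^ n ≤ m := le_of_pow_le_pow_left₀ (by omega) (Nat.cast_nonneg m) h8
  have h10 : (β : ℝ) < m := h4.trans_le h9
  have h11 : β < m := by exact_mod_cast h10
  have h12 : m = s := by
    rcases max_choice s β with h | h
    · exact h
    · omega
  rw [eq1, ← h12]
  exact h9

/-- **Choices.** In a set with bounded representation function every choice of representations has
cut rank at least a power. -/
theorem choice_rank {b : ℕ} (hb : 2 ≤ b) (g : ℕ) {d : ℝ} (hd : 0 < d) :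
    ∃ c : ℝ, 0 < c ∧ ∃ n₀ : ℕ, ∀ n ≥ n₀, ∀ A : Set ℕ, (∀ m, rep A m ≤ g) →
      ∀ (S : Finset (ℕ × ℕ)) (s : ℕ),
        (∀ p ∈ S, p.1 < b ^ n ∧ p.2 ∈ A ∧ ∃ a' ∈ A, p.2 + a' = p.1) →
        (b : ℝ) ^ (d * n) ≤ S.card → CutRank2 b n S s → (b : ℝ) ^ (c * n) ≤ s := by
  have hE : 1 ≤ 3 * (2 ^ (2 * g + 1) - 1) := by
    have : 2 ^ 1 ≤ 2 ^ (2 * g + 1) := Nat.pow_le_pow_right (by norm_num) (by omega)
    omega
  obtain ⟨n₀, hn₀⟩ := asym hb hd (b * b + 1) (2 * g + 1) (3 * (2 ^ (2 * g + 1) - 1)) (b * b) hE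
  have hE0 : (0 : ℝ) < (3 * (2 ^ (2 * g + 1) - 1) : ℕ) := by exact_mod_cast hE
  refine ⟨d / (2 * (3 * (2 ^ (2 * g + 1) - 1) : ℕ)), by positivity, n₀ + 1,
    fun n hn A hr S s hA hcard hs => hn₀ n (by omega) s (hcard.trans ?_)⟩
  have h1 := choice_card (k := g) hb (by omega : 1 ≤ n) (fun m => (hr m).trans_lt
    ((Nat.lt_two_pow_self).trans (Nat.pow_lt_pow_right (by norm_num) (by omega))))
    (fun p hp => (hA p hp).1) (fun p hp => by
      obtain ⟨-, h2, a', h3, h4⟩ := hA p hp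
      have e : p.1 - p.2 = a' := by omega
      rw [e]
      exact ⟨by omega, h2, h3⟩) hs
  exact_mod_cast h1

/-- **Elements.** The same for subsets. -/
theorem subset_rank {b : ℕ} (hb : 2 ≤ b) (g : ℕ) {d : ℝ} (hd : 0 < d) :
    ∃ c : ℝ, 0 < c ∧ ∃ n₀ : ℕ, ∀ n ≥ n₀, ∀ A : Set ℕ, (∀ m, rep A m ≤ g) →
      ∀ (S : Finset ℕ) (s : ℕ), (∀ a ∈ S, a < b ^ n ∧ a ∈ A) →
        (b : ℝ) ^ (d * n) ≤ S.card → CutRank b n S s → (b : ℝ) ^ (c * n) ≤ s := by
  have hE : 1 ≤ 3 * (2 ^ (g + 1) - 1) := by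
    have : 2 ^ 1 ≤ 2 ^ (g + 1) := Nat.pow_le_pow_right (by norm_num) (by omega)
    omega
  obtain ⟨n₀, hn₀⟩ := asym hb hd (b + 1) (g + 1) (3 * (2 ^ (g + 1) - 1)) b hE
  have hE0 : (0 : ℝ) < (3 * (2 ^ (g + 1) - 1) : ℕ) := by exact_mod_cast hE
  refine ⟨d / (2 * (3 * (2 ^ (g + 1) - 1) : ℕ)), by positivity, n₀ + 1,
    fun n hn A hr S s hA hcard hs => hn₀ n (by omega) s (hcard.trans ?_)⟩
  classical
  set S' : Finset (Fin n → Fin b) := Finset.univ.filter fun w => value w ∈ S with hS'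
  have hmem : ∀ w, w ∈ S' ↔ value w ∈ S := by
    intro w
    rw [hS', mem_filter]
    simp
  have hc : S.card = S'.card := by
    symm
    refine Finset.card_bij (fun w _ => value w) (fun w hw => (hmem w).1 hw) ?_ ?_
    · intro w _ w' _ h
      exact value_injective h
    · intro c hc
      obtain ⟨w, rfl⟩ := exists_word (b := b) (n := n) (hA c hc).1
      exact ⟨w, (hmem _).2 hc, rfl⟩
  obtain ⟨T, hT, hset, hblocks⟩ := Helper29.MP.exists_path n n (by omega) le_rfl
  have huniv : T.set = univ := by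
    rw [hset]
    exact Finset.filter_true_of_mem fun i _ => i.2
  have hsupp := suppRank_of_cutRank (n := n) (by omega : 1 ≤ b) hs
  have hrk : ∀ D ∈ T.blocks, SuppRank S' D (max s b) := by
    intro D hD
    rcases hblocks D hD with ⟨j, rfl⟩ | ⟨i, rfl⟩
    · obtain ⟨F, hF, f, hf, h⟩ := hsupp j
      exact ⟨F, hF, f, hf, h.trans (le_max_left _ _)⟩
    · obtain ⟨F, hF, f, hf, -⟩ := hsupp 0
      exact ⟨F, hF, f, hf, (Helper29.MP.rk_singleton f i).trans (le_max_right _ _)⟩
  have h1 := Helper84.TN.supp_int_bound (A := A) (x := b ^ n) (k := g + 1) T hT huniv S'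
    (le_max_of_le_right (by omega)) hrk
    (fun w hw => ⟨(hA _ ((hmem w).1 hw)).2, (value_lt w).le⟩) (fun m _ => (hr m).trans_lt
      ((Nat.lt_two_pow_self).trans (Nat.pow_lt_pow_right (by norm_num) (by omega))))
  rw [← hc] at h1
  exact_mod_cast h1

end Pool.Agent.Helper1.MP
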