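import Mathlib
import Pool.Agent.Helper1.MP.Mem
import Pool.Agent.Helper1.LR.LawCut
import Pool.Agent.Helper12.MP.Back
import Pool.Agent.Helper84.MP.Crisp

/-!
MP_12a1af_nt (Erdős–Turán): choices of representations by machines with little memory.
-/

namespace Pool.Agent.Helper1.MP.MemText

open Pool.Agent.Helper84.MP (CutRank)

open Pool.Agent.Helper82.CF (rep)

/-- sets of small cut rank with bounded representation function -/
theorem sharp (d : ℝ) (hd : d < 1 / 2) (e : ℝ) (he : 0 < e) : ∃ M n₀ : ℕ, ∀ n ≥ n₀,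
    ∃ (s : ℕ) (S : Finset ℕ), S ⊆ Finset.range (2 ^ n) ∧ (2 : ℝ) ^ (d * n) ≤ S.card ∧
      (∀ m, rep S m ≤ M) ∧ CutRank 2 n S s ∧ (s : ℝ) ≤ (2 : ℝ) ^ (e * n) := by
  obtain ⟨C, hC, h⟩ := Helper1.LR.law_cut d hd
  have hl2 : 0 < Real.log 2 := Real.log_pos (by norm_num)
  set ε : ℝ := e * Real.log 2 / (2 * C) with hε
  have hε0 : 0 < ε := by positivity
  have h1 : ∀ᶠ x : ℝ in Filter.atTop, Real.log x ≤ ε * x := by
    have := (Real.isLittleO_log_id_atTop.bound hε0).and (Filter.eventually_ge_atTop (0 : ℝ))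
    refine this.mono fun x hx => ?_
    have h2 := hx.1
    rw [id, Real.norm_eq_abs, Real.norm_eq_abs, abs_of_nonneg hx.2] at h2
    exact (le_abs_self _).trans h2
  have h3 : ∀ᶠ x : ℝ in Filter.atTop, Real.log x ^ 3 ≤ ε * x := by
    have := ((Real.isLittleO_pow_log_id_atTop (n := 3)).bound hε0).and
      (Filter.eventually_ge_atTop (0 : ℝ))
    refine this.mono fun x hx => ?_
    have h2 := hx.1
    rw [id, Real.norm_eq_abs, Real.norm_eq_abs, abs_of_nonneg hx.2] at h2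
    exact (le_abs_self _).trans h2
  obtain ⟨M, hM⟩ := ((tendsto_natCast_atTop_atTop.eventually h1).and
    (Filter.eventually_ge_atTop 2)).exists
  obtain ⟨hM1, hM2⟩ := hM
  have h4 := (tendsto_natCast_atTop_atTop.eventually h3).and
    ((Filter.eventually_ge_atTop M).and (Filter.eventually_ge_atTop ⌈C⌉₊))
  obtain ⟨n₀, hn₀⟩ := Filter.eventually_atTop.1 h4
  refine ⟨M, n₀, fun n hn => ?_⟩
  obtain ⟨g1, g2, g3⟩ := hn₀ n hn
  have hCn : C ≤ n := (Nat.le_ceil C).trans (by exact_mod_cast g3)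
  obtain ⟨s, S, q1, q2, q3, q4⟩ := h n M hCn hM2 g2
  have hM0 : (0 : ℝ) < M := by
    have : 0 < M := by omega
    exact_mod_cast this
  refine ⟨s, S.image Helper84.TN.value, ?_, ?_, ?_,
    Helper12.MP.cutRank_of_suppRank (by norm_num) q1, q2.trans ?_⟩
  · intro c hc
    rw [Finset.mem_image] at hc
    obtain ⟨w, -, rfl⟩ := hc
    exact Finset.mem_range.2 (Helper12.MP.value_lt w)
  · rwa [Finset.card_image_of_injective _ Helper84.TN.value_injective]
  · intro m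
    have e1 : ((S.image Helper84.TN.value : Finset ℕ) : Set ℕ) =
        {a | ∃ v ∈ S, Helper84.TN.value v = a} := by
      ext a
      simp
    rw [e1]
    exact q4 m
  · rw [Real.rpow_def_of_pos (by norm_num)]
    refine Real.exp_le_exp.2 ?_
    have r1 : (n : ℝ) / M * Real.log M ≤ ε * n := by
      rw [div_mul_eq_mul_div, div_le_iff₀ hM0]
      calc (n : ℝ) * Real.log M ≤ n * (ε * M) :=
            mul_le_mul_of_nonneg_left hM1 (Nat.cast_nonneg n)
        _ = ε * n * M := by ring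
    calc C * (n / M * Real.log M + Real.log n ^ 3) ≤ C * (ε * n + ε * n) :=
          mul_le_mul_of_nonneg_left (add_le_add r1 g1) hC.le
      _ = Real.log 2 * (e * n) := by
          rw [hε]
          field_simp
          ring

/-- (1) Let `r_A ≤ g` and `d > 0`. For all large `n`, if `S` is a set of at least `b ^ (d n)` pairs
`(c, a)`, `c < b ^ n`, with `a` and `c - a` in `A`, the cut rank of `S` is at least `b ^ (c n)`; and
the same for sets of `b ^ (d n)` elements of `A` below `b ^ n`. (2) For `d < 1 / 2` and `e > 0` there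
are, for all large `n`, sets of `2 ^ (d n)` numbers below `2 ^ n` with `r ≤ M` and cut rank at most
`2 ^ (e n)`. (3) If the representations are chosen by a `b`-regular function, `r_A(m) ≥ m ^ e`
for infinitely many `m`. -/
theorem result :
    (∀ (b g : ℕ) (d : ℝ), 2 ≤ b → 0 < d → ∃ c : ℝ, 0 < c ∧ ∃ n₀ : ℕ, ∀ n ≥ n₀, ∀ A : Set ℕ,
      (∀ m, rep A m ≤ g) →
      (∀ (S : Finset (ℕ × ℕ)) (s : ℕ),
        (∀ p ∈ S, p.1 < b ^ n ∧ p.2 ∈ A ∧ ∃ a' ∈ A, p.2 + a' = p.1) →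
        (b : ℝ) ^ (d * n) ≤ S.card → CutRank2 b n S s → (b : ℝ) ^ (c * n) ≤ s) ∧
      ∀ (S : Finset ℕ) (s : ℕ), (∀ a ∈ S, a < b ^ n ∧ a ∈ A) →
        (b : ℝ) ^ (d * n) ≤ S.card → CutRank b n S s → (b : ℝ) ^ (c * n) ≤ s) ∧
    (∀ d : ℝ, d < 1 / 2 → ∀ e : ℝ, 0 < e → ∃ M n₀ : ℕ, ∀ n ≥ n₀,
      ∃ (s : ℕ) (S : Finset ℕ), S ⊆ Finset.range (2 ^ n) ∧ (2 : ℝ) ^ (d * n) ≤ S.card ∧
        (∀ m, rep S m ≤ M) ∧ CutRank 2 n S s ∧ (s : ℝ) ≤ (2 : ℝ) ^ (e * n)) ∧
    ∀ (K : Type) [Field K] (A : Set ℕ) (b : ℕ) (f : ℕ → ℕ → K), 2 ≤ b → Helper84.MP.Crisp.IsRegular2 b f →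
      (∀ c a, f c a ≠ 0 → a ∈ A ∧ ∃ a' ∈ A, a + a' = c) →
      ∀ d : ℝ, 0 < d →
        (∀ X : ℕ, ∃ x ≥ X, (x : ℝ) ^ d ≤ {c | c < x ∧ ∃ a, f c a ≠ 0}.ncard) →
        ∃ e : ℝ, 0 < e ∧ ∀ X : ℕ, ∃ m ≥ X, (m : ℝ) ^ e ≤ rep A m := by
  refine ⟨fun b g d hb hd => ?_, fun d hd e he => sharp d hd e he, ?_⟩
  · obtain ⟨c, hc, n₀, h⟩ := choice_rank hb g hd
    obtain ⟨c', hc', n₀', h'⟩ := subset_rank hb g hd
    have hb1 : (1 : ℝ) ≤ b := by
      have : 1 ≤ b := by omega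
      exact_mod_cast this
    refine ⟨min c c', lt_min hc hc', max n₀ n₀', fun n hn A hr => ⟨fun S s h1 h2 h3 => ?_,
      fun S s h1 h2 h3 => ?_⟩⟩
    · refine le_trans (Real.rpow_le_rpow_of_exponent_le hb1 ?_)
        (h n (le_trans (le_max_left _ _) hn) A hr S s h1 h2 h3)
      exact mul_le_mul_of_nonneg_right (min_le_left _ _) (Nat.cast_nonneg n)
    · refine le_trans (Real.rpow_le_rpow_of_exponent_le hb1 ?_)
        (h' n (le_trans (le_max_right _ _) hn) A hr S s h1 h2 h3)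
      exact mul_le_mul_of_nonneg_right (min_le_right _ _) (Nat.cast_nonneg n)
  · intro K _ A b f hb hf hA
    exact (Helper84.MP.Crisp.result.2.1 K A b f hb hf hA).1

end Pool.Agent.Helper1.MP.MemText
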