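import Mathlib
import Pool.Agent.Helper1.LR.LawCut
import Pool.Agent.Helper84.MP.RowCol

/-!
One function with small ranks at all cuts of the digits and bounded representation function of its
support.
-/

set_option autoImplicit false

open Finset

namespace Pool.Agent.Helper1.MP.OneFun

section

open Pool.Agent.Helper29.LS
open Pool.Agent.Helper82.CF (rep)
open Pool.Agent.Helper1.TY (rpF)
open Pool.Agent.Helper1.LR (value value_block value_digit value_lt gk_sum gk_one_sub gk_pow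
  gk_dep_one gk_prod gk_zero exists_comb)
open Pool.Agent.Helper84.TN (rk rk_mul ind rk_ind row)
open Pool.Agent.Helper84.MP (ini)
open Polynomial

/-- **The block function**, ranks at all initial segments. -/
theorem block_fun {n L J m : ℕ} {S₀ : Finset ℕ} (hJ : 1 ≤ J) (hL : 1 ≤ L) (hn : J * L ≤ n)
    (hS1 : ∀ a ∈ S₀, 2 * a < 2 ^ L) (hS2 : ∀ N, rpF S₀ N ≤ 2) (hm : S₀.card ≤ 2 ^ m)
    (hm1 : 1 ≤ m) (hq : 2 ^ (2 * J * (J + 1)) < 2 ^ m) :
    ∃ (A : Set ℕ) (K : Type) (_ : Field K) (f : (Fin n → Fin 2) → K),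
      (∀ k : ℕ, rk f (ini n k) ≤ S₀.card * (1 + (J * (2 * J + 2)) ^ m)) ∧
      (∀ v, f v ≠ 0 ↔ Helper84.TN.value v ∈ A) ∧ (∀ a ∈ A, a < 2 ^ (J * L)) ∧
      S₀.card ^ J ≤ 2 ^ m * {v | f v ≠ 0}.ncard ∧ ∀ N, rep A N ≤ 2 * J + 1 := by
  classical
  haveI : Fact (Nat.Prime 2) := ⟨Nat.prime_two⟩
  haveI : NeZero J := ⟨by omega⟩
  let K := GaloisField 2 m
  haveI : Fintype K := Fintype.ofFinite K
  have hcard : Fintype.card K = 2 ^ m := by
    rw [← Nat.card_eq_fintype_card]
    exact GaloisField.card 2 m (by omega)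
  let E := FiniteField.Extension K 2 J
  have hfin : Module.finrank K E = J := FiniteField.finrank_extension K 2 J
  let ω : Fin J → E := fun i => (Module.finBasisOfFinrankEq K E hfin) i
  have hω : LinearIndependent K ω := (Module.finBasisOfFinrankEq K E hfin).linearIndependent
  obtain ⟨φ, lam, hlam⟩ : ∃ (φ : E →ₗ[K] K) (lam : E), φ lam = 1 := by
    refine ⟨(Module.finBasisOfFinrankEq K E hfin).coord ⟨0, hJ⟩,
      (Module.finBasisOfFinrankEq K E hfin) ⟨0, hJ⟩, ?_⟩
    rw [Module.Basis.coord_apply, Module.Basis.repr_self, Finsupp.single_eq_same]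
  set B : Finset (Fin (2 ^ L)) := univ.filter fun v => (v : ℕ) ∈ S₀ with hB
  have hBmem : ∀ v, v ∈ B ↔ (v : ℕ) ∈ S₀ := by
    intro v
    rw [hB, Finset.mem_filter]
    exact ⟨fun h => h.2, fun h => ⟨Finset.mem_univ _, h⟩⟩
  have hBcard : B.card = S₀.card := by
    refine Finset.card_bij (fun v _ => (v : ℕ)) (fun v hv => (hBmem v).1 hv)
      (fun v _ v' _ h => Fin.ext h) ?_
    intro a ha
    exact ⟨⟨a, by have := hS1 a ha; omega⟩, (hBmem _).2 ha, rfl⟩
  obtain ⟨ψ, hψ⟩ : ∃ ψ : Fin (2 ^ L) → K, Set.InjOn ψ (B : Set (Fin (2 ^ L))) := by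
    have h1 : B.card ≤ (univ : Finset K).card := by
      rw [hBcard, Finset.card_univ, hcard]
      exact hm
    obtain ⟨B', -, hB'⟩ := Finset.exists_subset_card_eq h1
    obtain ⟨e⟩ : Nonempty (B ≃ B') := ⟨Finset.equivOfCardEq hB'.symm⟩
    refine ⟨fun v => if h : v ∈ B then (e ⟨v, h⟩ : K) else 0, ?_⟩
    intro v hv v' hv' h
    rw [Finset.mem_coe] at hv hv'
    simp only [dif_pos hv, dif_pos hv'] at h
    have := e.injective (Subtype.ext h)
    exact congrArg Subtype.val this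
  obtain ⟨g, hg, hgood⟩ := exists_good2 (J := J) (B := B) (by rw [hBcard, hcard]; exact hm)
    (WE φ ψ ω (2 * J + 2))
    (fun W hW hWc c hc => isolateE hlam hψ hω hW (le_of_eq hWc) hc) (by rw [hcard]; exact hq)
  obtain ⟨t, ht⟩ := exists_level (J := J) B g (by rw [hcard]; exact Nat.two_pow_pos m)
  have hn1 : 1 ≤ n := le_trans (Nat.mul_pos hJ hL) hn
  set S : Finset (Fin n → Fin 2) := univ.filter fun w => value w ∈ levN (2 ^ L) J B g t with hS
  have hSmem : ∀ w, w ∈ S ↔ value w ∈ levN (2 ^ L) J B g t := by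
    intro w
    rw [hS, Finset.mem_filter]
    exact ⟨fun h => h.2, fun h => ⟨Finset.mem_univ _, h⟩⟩
  have epow : (2 ^ L) ^ J = 2 ^ (J * L) := by rw [← pow_mul, mul_comm L J]
  have hlt : ∀ a ∈ levN (2 ^ L) J B g t, a < 2 ^ (J * L) := by
    rintro a ⟨c, -, rfl⟩
    exact lt_of_lt_of_eq (finFunctionFinEquiv c).2 epow
  have hfne : ∀ v, fn n L J m B g t v ≠ 0 ↔ value v ∈ levN (2 ^ L) J B g t := fun v =>
    fn_ne hcard hm1 ..
  refine ⟨levN (2 ^ L) J B g t, K, inferInstance, fn n L J m B g t, fun k => ?_, hfne, hlt, ?_,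
    fun N => rep_levN (Nat.two_pow_pos L) hS1 hS2 hBmem hgood t N⟩
  · set D : Finset (Fin n) := Finset.univ.filter fun i : Fin n => (i : ℕ) < k with hD
    obtain ⟨i₀, hi₀⟩ := comb_cut (L := L) (D := D) hJ (Or.inr ⟨k, hD⟩)
    change rk _ D ≤ _
    rw [← hBcard]
    refine rk_fn_of hL t D i₀ hi₀ fun v₀ => ?_
    have h1 : g - t • 1 ∈ WE φ ψ ω (2 * J + 2) :=
      Submodule.sub_mem _ hg (Submodule.smul_mem _ _ (one_mem_WE hlam ψ ω (by omega)))
    have h2 := rk_WE (fun i => pb n L i) (fun i w => bk L J i w)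
      (fun i w w' h => bk_congr i w w' h) D i₀ hi₀ v₀ h1
    rw [hfin] at h2
    exact h2
  · rw [← hBcard]
    refine ht.trans ?_
    rw [hcard]
    refine Nat.mul_le_mul_left _ ?_
    have h1 : ∀ c : Fin J → Fin (2 ^ L), ∃ w : Fin n → Fin 2,
        value w = (finFunctionFinEquiv c : ℕ) := by
      intro c
      apply Helper1.LR.exists_value
      exact (lt_of_lt_of_eq (finFunctionFinEquiv c).2 epow).trans_le
        (Nat.pow_le_pow_right (by norm_num) hn)
    choose W hW using h1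
    have eS : ({v | fn n L J m B g t v ≠ 0} : Set (Fin n → Fin 2)) = (S : Set (Fin n → Fin 2)) := by
      ext w
      rw [Finset.mem_coe, hSmem, Set.mem_setOf_eq, hfne]
    rw [eS, Set.ncard_coe_finset]
    refine Finset.card_le_card_of_injOn W ?_ ?_
    · intro c hc
      rw [Finset.mem_coe, hSmem, hW]
      exact ⟨c, hc, rfl⟩
    · intro c _ c' _ h
      have h2 : (finFunctionFinEquiv c : ℕ) = finFunctionFinEquiv c' := by
        rw [← hW c, ← hW c', h]
      exact finFunctionFinEquiv.injective (Fin.ext h2)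

end

section

open Pool.Agent.Helper84.TN (rk rk_mul ind rk_ind row)
open Pool.Agent.Helper82.CF (rep)
open Pool.Agent.Helper45.TY hiding rep
open Pool.Agent.Helper1.TY
open Pool.Agent.Helper1.LR
open Pool.Agent.Helper84.MP (ini)

/-- the function for `M` and all large `n` -/
theorem mid_fun {d ε : ℝ} {n M : ℕ} (hd0 : 0 ≤ d) (hε : 0 < ε) (hdε : 1 / 2 - (d + ε) = ε)
    (hM0 : 8 ≤ ε * M) (hM3 : M ^ 3 ≤ n) :
    ∃ (K : Type) (_ : Field K) (s : ℕ) (f : (Fin n → Fin 2) → K),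
      (∀ k : ℕ, rk f (ini n k) ≤ s) ∧ (s : ℝ) ≤ Real.exp (20 * (n / M * Real.log M)) ∧
      (2 : ℝ) ^ (d * n) ≤ {v | f v ≠ 0}.ncard ∧
      ∀ m, rep {a | ∃ v, f v ≠ 0 ∧ Helper84.TN.value v = a} m ≤ M := by
  have hε4 : ε ≤ 1 / 4 := by linarith
  have hMr : (32 : ℝ) ≤ M := by
    have h0 : (0 : ℝ) ≤ M := Nat.cast_nonneg _
    nlinarith
  have hM : 32 ≤ M := by exact_mod_cast hMr
  have hM0' : (0 : ℝ) < M := by linarith
  set J : ℕ := (M - 1) / 2 with hJ
  have hJ1 : 2 * J + 1 ≤ M := by omega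
  have hJ2 : M ≤ 2 * J + 2 := by omega
  have hJ3 : 1 ≤ J := by omega
  have hJ4 : M ≤ 4 * J := by omega
  set L : ℕ := n / J with hL
  have hJL : J * L ≤ n := Nat.mul_div_le _ _
  have hnL : n < J * (L + 1) := Nat.lt_mul_div_succ _ (by omega)
  have hL1 : 2 * J * (J + 1) + 1 ≤ L := by
    refine (Nat.le_div_iff_mul_le (by omega)).2 ?_
    calc (2 * J * (J + 1) + 1) * J ≤ (2 * J + 1) ^ 3 := by nlinarith [Nat.zero_le (J ^ 3)]
      _ ≤ M ^ 3 := Nat.pow_le_pow_left hJ1 3
      _ ≤ n := hM3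
  have hLM : M ≤ L := by nlinarith
  have hL0 : 1 ≤ L := by omega
  have hLr : (M : ℝ) ≤ L := by exact_mod_cast hLM
  have hL1r : (1 : ℝ) ≤ L := by exact_mod_cast hL0
  have hsid : 2 ≤ (1 / 2 - (d + ε)) * (L : ℝ) := by
    rw [hdε]
    have := mul_le_mul_of_nonneg_left hLr hε.le
    linarith
  obtain ⟨S₀, h1, h2, h3⟩ := exists_sidon (q := 2) (l := L) le_rfl (δ := d + ε) (by linarith) hsid
  have h3' : (2 : ℝ) ^ ((d + ε) * (L : ℝ)) ≤ #S₀ := by
    have := h3
    push_cast at this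
    exact this
  have hS₀ : #S₀ ≤ 2 ^ L := by
    have : S₀ ⊆ range (2 ^ L) := by
      intro a ha
      rw [mem_range]
      have := h1 a ha
      omega
    exact (card_le_card this).trans (le_of_eq (card_range _))
  obtain ⟨A, K, hK, f, hT3, hT4, hT5, hT6, hT7⟩ :=
    block_fun (n := n) (m := L) hJ3 hL0 hJL h1 h2 hS₀ hL0
      (Nat.pow_lt_pow_right (by norm_num) (by omega))
  have hJr : (1 : ℝ) ≤ J := by exact_mod_cast hJ3
  refine ⟨K, hK, _, f, hT3, ?_, ?_, fun m => ?_⟩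
  · set lam : ℝ := Real.log M with hlam
    have hlog2 : (0.69 : ℝ) < Real.log 2 := by
      have := Real.log_two_gt_d9
      linarith
    have hlog2' : Real.log 2 ≤ 1 := by
      have := Real.log_two_lt_d9
      linarith
    have hlam2 : Real.log 2 ≤ lam := Real.log_le_log (by norm_num) (by linarith)
    have hlam0 : (0.69 : ℝ) ≤ lam := hlog2.le.trans hlam2
    have hJJ : 1 ≤ J * (2 * J + 2) := Nat.mul_pos hJ3 (by omega)
    have e1 : ((#S₀ * (1 + (J * (2 * J + 2)) ^ L) : ℕ) : ℝ) ≤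
        Real.exp (L * Real.log 2 + (Real.log 2 + L * Real.log ((J * (2 * J + 2) : ℕ) : ℝ))) := by
      rw [Real.exp_add, Real.exp_add, Real.exp_nat_mul, Real.exp_nat_mul,
        Real.exp_log (by norm_num), Real.exp_log (by exact_mod_cast hJJ)]
      have g1 : #S₀ * (1 + (J * (2 * J + 2)) ^ L) ≤ 2 ^ L * (2 * (J * (2 * J + 2)) ^ L) := by
        refine Nat.mul_le_mul hS₀ ?_
        have : 1 ≤ (J * (2 * J + 2)) ^ L := Nat.one_le_pow _ _ hJJ
        omega
      have g2 : ((#S₀ * (1 + (J * (2 * J + 2)) ^ L) : ℕ) : ℝ) ≤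
          ((2 ^ L * (2 * (J * (2 * J + 2)) ^ L) : ℕ) : ℝ) := by exact_mod_cast g1
      refine g2.trans (le_of_eq ?_)
      push_cast
      rfl
    refine e1.trans (Real.exp_le_exp.2 ?_)
    have e3 : Real.log ((J * (2 * J + 2) : ℕ) : ℝ) ≤ 2 * lam := by
      have g1 : J * (2 * J + 2) ≤ M ^ 2 := by nlinarith
      have g2 : ((J * (2 * J + 2) : ℕ) : ℝ) ≤ (M : ℝ) ^ 2 := by exact_mod_cast g1
      have g3 := Real.log_le_log (by exact_mod_cast hJJ) g2
      rw [Real.log_pow] at g3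
      push_cast at g3 ⊢
      exact g3
    have e5 : (L : ℝ) ≤ 4 * (n / M) := by
      have g1 : (L : ℝ) ≤ n / J := Nat.cast_div_le
      have g2 : (n : ℝ) / J ≤ 4 * (n / M) := by
        have g3 : (M : ℝ) ≤ 4 * J := by exact_mod_cast hJ4
        rw [div_le_iff₀ (by linarith)]
        have g4 : (n : ℝ) = n / M * M := by field_simp
        have g5 : 0 ≤ (n : ℝ) / M := by positivity
        calc (n : ℝ) = n / M * M := g4
          _ ≤ n / M * (4 * J) := mul_le_mul_of_nonneg_left g3 g5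
          _ = 4 * (n / M) * J := by ring
      exact g1.trans g2
    have e6 : (2 : ℝ) ≤ 3 * lam := by linarith
    calc (L : ℝ) * Real.log 2 + (Real.log 2 + L * Real.log ((J * (2 * J + 2) : ℕ) : ℝ)) ≤
        L * 1 + (L + L * (2 * lam)) := by
          refine add_le_add (mul_le_mul_of_nonneg_left hlog2' (by linarith))
            (add_le_add (by linarith) (mul_le_mul_of_nonneg_left e3 (by linarith)))
      _ = L * (2 + 2 * lam) := by ring
      _ ≤ L * (5 * lam) := mul_le_mul_of_nonneg_left (by linarith) (by linarith)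
      _ ≤ 4 * (n / M) * (5 * lam) := mul_le_mul_of_nonneg_right e5 (by positivity)
      _ = 20 * (n / M * lam) := by ring
  · have g1 : ((2 : ℝ) ^ ((d + ε) * (L : ℝ))) ^ J ≤ (2 : ℝ) ^ L * {v | f v ≠ 0}.ncard := by
      calc ((2 : ℝ) ^ ((d + ε) * (L : ℝ))) ^ J ≤ (#S₀ : ℝ) ^ J :=
            pow_le_pow_left₀ (by positivity) h3' J
        _ ≤ (2 : ℝ) ^ L * {v | f v ≠ 0}.ncard := by exact_mod_cast hT6
    have g2 : (2 : ℝ) ^ L * (2 : ℝ) ^ (d * n) ≤ ((2 : ℝ) ^ ((d + ε) * (L : ℝ))) ^ J := by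
      rw [← Real.rpow_natCast _ L, ← Real.rpow_natCast _ J, ← Real.rpow_mul (by norm_num),
        ← Real.rpow_add (by norm_num)]
      refine Real.rpow_le_rpow_of_exponent_le (by norm_num) ?_
      have q1 : (n : ℝ) ≤ J * (L + 1) := by exact_mod_cast hnL.le
      have q2 : d * n ≤ d * (J * (L + 1)) := mul_le_mul_of_nonneg_left q1 hd0
      have q3 : (2 : ℝ) ≤ ε * J := by
        have g3 : (M : ℝ) ≤ 4 * J := by exact_mod_cast hJ4
        have := mul_le_mul_of_nonneg_left g3 hε.le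
        linarith
      have q4 : 2 * (L : ℝ) ≤ ε * J * L := mul_le_mul_of_nonneg_right q3 (by linarith)
      have q5 : (J : ℝ) ≤ L := by
        have : J ≤ L := by omega
        exact_mod_cast this
      have q6 : d * J ≤ 1 * J := mul_le_mul_of_nonneg_right (by linarith) (by linarith)
      have q7 : (d + ε) * (L : ℝ) * J = d * (J * L) + ε * J * L := by ring
      have q8 : d * (J * ((L : ℝ) + 1)) = d * (J * L) + d * J := by ring
      rw [q7]
      linarith
    exact le_of_mul_le_mul_left (g2.trans g1) (by positivity)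
  · have e : {a | ∃ v, f v ≠ 0 ∧ Helper84.TN.value v = a} = A := by
      ext a
      constructor
      · rintro ⟨v, hv, rfl⟩
        exact (hT4 v).1 hv
      · intro ha
        obtain ⟨w, hw⟩ := exists_value ((hT5 a ha).trans_le
          (Nat.pow_le_pow_right (by norm_num) hJL))
        have hw' : Pool.Agent.Helper84.TN.value w = a := hw
        exact ⟨w, (hT4 w).2 (by rwa [hw']), hw'⟩
    rw [e]
    exact (hT7 m).trans hJ1


/-- **One function for all cuts**: for `d < 1 / 2` and `e > 0` there is, for all large `n`, a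
function on the binary words of length `n` which is not zero at `2 ^ (d n)` words at least, such
that the numbers with these words have at most `M` representations of each number, and the ranks at
all initial segments are at most `2 ^ (e n)`. -/
theorem sharp_one (d : ℝ) (hd : d < 1 / 2) (e : ℝ) (he : 0 < e) : ∃ M n₀ : ℕ, ∀ n ≥ n₀,
    ∃ (K : Type) (_ : Field K) (s : ℕ) (f : (Fin n → Fin 2) → K),
      (∀ k : ℕ, Pool.Agent.Helper84.MP.crk f (ini n k) ≤ s) ∧ (s : ℝ) ≤ (2 : ℝ) ^ (e * n) ∧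
      (2 : ℝ) ^ (d * n) ≤ {v | f v ≠ 0}.ncard ∧
      ∀ m, rep {a | ∃ v, f v ≠ 0 ∧ Pool.Agent.Helper84.TN.value v = a} m ≤ M := by
  wlog hd0 : 0 ≤ d generalizing d
  · obtain ⟨M, n₀, h⟩ := this 0 (by norm_num) le_rfl
    refine ⟨M, n₀, fun n hn => ?_⟩
    obtain ⟨K, hK, s, f, h1, h2, h3, h4⟩ := h n hn
    refine ⟨K, hK, s, f, h1, h2, le_trans ?_ h3, h4⟩
    refine Real.rpow_le_rpow_of_exponent_le (by norm_num) ?_
    exact mul_le_mul_of_nonneg_right (not_le.1 hd0).le (Nat.cast_nonneg _)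
  set ε : ℝ := (1 / 2 - d) / 2 with hε
  have hε0 : 0 < ε := by rw [hε]; linarith
  have hdε : 1 / 2 - (d + ε) = ε := by rw [hε]; ring
  have hl2 : 0 < Real.log 2 := Real.log_pos (by norm_num)
  set δ : ℝ := e * Real.log 2 / 20 with hδ
  have hδ0 : 0 < δ := by positivity
  have h1 : ∀ᶠ x : ℝ in Filter.atTop, Real.log x ≤ δ * x := by
    have := (Real.isLittleO_log_id_atTop.bound hδ0).and (Filter.eventually_ge_atTop (0 : ℝ))
    refine this.mono fun x hx => ?_
    have h2 := hx.1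
    rw [id, Real.norm_eq_abs, Real.norm_eq_abs, abs_of_nonneg hx.2] at h2
    exact (le_abs_self _).trans h2
  obtain ⟨M, hM⟩ := ((tendsto_natCast_atTop_atTop.eventually h1).and
    ((Filter.eventually_ge_atTop 2).and (Filter.eventually_ge_atTop ⌈8 / ε⌉₊))).exists
  obtain ⟨hM1, hM2, hM3⟩ := hM
  have hM0 : (0 : ℝ) < M := by
    have : 0 < M := by omega
    exact_mod_cast this
  have hM4 : 8 ≤ ε * M := by
    have h : 8 / ε ≤ M := (Nat.le_ceil _).trans (by exact_mod_cast hM3)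
    rwa [div_le_iff₀ hε0, mul_comm] at h
  refine ⟨M, M ^ 3, fun n hn => ?_⟩
  obtain ⟨K, hK, s, f, q1, q2, q3, q4⟩ := mid_fun hd0 hε0 hdε hM4 hn
  refine ⟨K, hK, s, f, fun k => ?_, q2.trans ?_, q3, q4⟩
  · rw [Pool.Agent.Helper84.MP.crk_eq_rk]
    exact q1 k
  · rw [Real.rpow_def_of_pos (by norm_num)]
    refine Real.exp_le_exp.2 ?_
    have r1 : (n : ℝ) / M * Real.log M ≤ δ * n := by
      rw [div_mul_eq_mul_div, div_le_iff₀ hM0]
      calc (n : ℝ) * Real.log M ≤ n * (δ * M) :=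
            mul_le_mul_of_nonneg_left hM1 (Nat.cast_nonneg n)
        _ = δ * n * M := by ring
    calc 20 * ((n : ℝ) / M * Real.log M) ≤ 20 * (δ * n) := by linarith
      _ = Real.log 2 * (e * n) := by
          rw [hδ]
          ring

end

end Pool.Agent.Helper1.MP.OneFun
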