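import Pool.Agent.Helper1.MP.OneFun
import Pool.Agent.Helper12.MP.Aut
import Pool.Agent.Helper84.MP.Aut

/-!
# Automata with few states and bounded representation function
-/

namespace Pool.Agent.Helper1.MP

open Finset Matrix
open Pool.Agent.Helper84.MP
open Pool.Agent.Helper84.TN (value value_injective)
open Pool.Agent.Helper82.CF (rep)
open Pool.Agent.Helper12.MP (exists_word value_lt)

/-- **Sharpness.** For `d < 1 / 2` and `e > 0` there are, for all large `n`, automata with at most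
`2 ^ (e n)` states which select `2 ^ (d n)` numbers below `2 ^ n` at least, such that these numbers
have at most `M` representations of each number. -/
theorem sharp_aut (d : ℝ) (hd : d < 1 / 2) (e : ℝ) (he : 0 < e) : ∃ M n₀ : ℕ, ∀ n ≥ n₀,
    ∃ (K : Type) (_ : Field K) (s : ℕ) (f : ℕ → K), Aut 2 n s f ∧ (s : ℝ) ≤ (2 : ℝ) ^ (e * n) ∧
      (∀ a, f a ≠ 0 → a < 2 ^ n) ∧ (2 : ℝ) ^ (d * n) ≤ {a | f a ≠ 0}.ncard ∧
      ∀ m, rep {a | f a ≠ 0} m ≤ M := by
  classical
  obtain ⟨M, n₀, h⟩ := OneFun.sharp_one d hd e he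
  refine ⟨M, n₀, fun n hn => ?_⟩
  obtain ⟨K, hK, s, f, h1, h2, h3, h4⟩ := h n hn
  set F : ℕ → K := fun a => if h : ∃ w : Fin n → Fin 2, value w = a then f h.choose else 0 with hF
  have hFv : ∀ w : Fin n → Fin 2, F (value w) = f w := by
    intro w
    have hex : ∃ w' : Fin n → Fin 2, value w' = value w := ⟨w, rfl⟩
    rw [hF]
    simp only
    rw [dif_pos hex, value_injective hex.choose_spec]
  have hF0 : ∀ a, F a ≠ 0 → ∃ w : Fin n → Fin 2, f w ≠ 0 ∧ value w = a := by
    intro a ha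
    by_cases hex : ∃ w : Fin n → Fin 2, value w = a
    · obtain ⟨w, rfl⟩ := hex
      rw [hFv] at ha
      exact ⟨w, ha, rfl⟩
    · rw [hF] at ha
      simp only [dif_neg hex, ne_eq, not_true_eq_false] at ha
  have hset : {a | F a ≠ 0} = {a | ∃ w : Fin n → Fin 2, f w ≠ 0 ∧ value w = a} := by
    ext a
    constructor
    · intro ha
      exact hF0 a ha
    · rintro ⟨w, hw, rfl⟩
      rw [Set.mem_setOf_eq, hFv]
      exact hw
  obtain ⟨A, u, v, hA⟩ := Helper12.MP.aut_of_crk f h1
  refine ⟨K, hK, s, F, ⟨A, u, v, fun w => by rw [hFv, hA]⟩, h2, fun a ha => ?_, ?_, ?_⟩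
  · obtain ⟨w, -, rfl⟩ := hF0 a ha
    exact value_lt w
  · have e1 : {a | F a ≠ 0} = value '' {w : Fin n → Fin 2 | f w ≠ 0} := by
      rw [hset]
      rfl
    rw [e1, Set.ncard_image_of_injective _ value_injective]
    exact h3
  · rw [hset]
    exact h4

end Pool.Agent.Helper1.MP
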